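import Pool.Agent.Work.MP_db9399_da.Frame2
import Pool.Agent.Work.MP_db9399_all_helper75.FIN

/-!
# MP_db9399, DENSE-ALL, phase 2, block FIN2 (helper46)
-/

set_option autoImplicit false

namespace Pool.Agent.Work.MP_db9399_da.helper46

open Finset Classical
open Pool.Agent.Work.MP_db9399_all (nb)
open Pool.Agent.Work.MP_db9399_all.FIN (adj_of_verts uniq)
open _root_.MP_db9399_co (IsTotalColoring IsDistThreeMatching EveryTotalColoringExtends)
open Pool.Agent.Work.MP_db9399_da (Stmt_EMB2 Stmt_REG2 Stmt_MAIN2 Stmt_FIN2)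

universe u

/-- greedy extension on a conflict graph -/
theorem ext_greedy {ι : Type*} [Fintype ι] [DecidableEq ι] (cf : ι → ι → Prop) (k : ℕ)
    (hs : ∀ i j, cf i j → cf j i) (hi : ∀ i, ¬ cf i i)
    (hdeg : ∀ i, (univ.filter (fun j => cf i j)).card < k) (c₀ : ι → Fin k) (P : Finset ι)
    (hP : ∀ i ∈ P, ∀ j ∈ P, cf i j → c₀ i ≠ c₀ j) (T : Finset ι) :
    ∃ c : ι → Fin k, (∀ i ∈ P, c i = c₀ i) ∧
      ∀ i ∈ P ∪ T, ∀ j ∈ P ∪ T, cf i j → c i ≠ c j := by
  induction T using Finset.induction_on with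
  | empty =>
    refine ⟨c₀, fun _ _ => rfl, ?_⟩
    rw [union_empty]
    exact hP
  | insert a T _ ih =>
    obtain ⟨c, hc1, hc2⟩ := ih
    by_cases haP : a ∈ P ∪ T
    · refine ⟨c, hc1, ?_⟩
      have : P ∪ insert a T = P ∪ T := by
        rw [union_insert, insert_eq_of_mem haP]
      rw [this]
      exact hc2
    · have h1 : ((univ.filter (fun j => cf a j)).image c).card < (univ : Finset (Fin k)).card := by
        rw [card_univ, Fintype.card_fin]
        exact lt_of_le_of_lt card_image_le (hdeg a)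
      obtain ⟨x, _, hx⟩ := exists_mem_notMem_of_card_lt_card h1
      have hx' : ∀ j, cf a j → c j ≠ x := fun j hj he =>
        hx (mem_image.2 ⟨j, mem_filter.2 ⟨mem_univ _, hj⟩, he⟩)
      refine ⟨Function.update c a x, ?_, ?_⟩
      · intro i hiP
        have hne : i ≠ a := fun h => haP (mem_union_left _ (h ▸ hiP))
        rw [Function.update_of_ne hne]
        exact hc1 i hiP
      · intro i hi1 j hj1 hcf
        rw [union_insert, mem_insert] at hi1 hj1
        by_cases hia : i = a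
        · subst hia
          have hja : j ≠ i := fun h => hi i (h ▸ hcf)
          rw [Function.update_self, Function.update_of_ne hja]
          exact (hx' j hcf).symm
        · by_cases hja : j = a
          · subst hja
            rw [Function.update_self, Function.update_of_ne hia]
            exact hx' i (hs _ _ hcf)
          · rw [Function.update_of_ne hia, Function.update_of_ne hja]
            exact hc2 i (hi1.resolve_left hia) j (hj1.resolve_left hja) hcf

section large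
variable {V : Type u}

/-- the conflicts of a total colouring -/
def cfl (G : SimpleGraph V) : V ⊕ Sym2 V → V ⊕ Sym2 V → Prop
  | Sum.inl u, Sum.inl v => G.Adj u v
  | Sum.inl u, Sum.inr e => e ∈ G.edgeSet ∧ u ∈ e
  | Sum.inr e, Sum.inl u => e ∈ G.edgeSet ∧ u ∈ e
  | Sum.inr e, Sum.inr f => e ≠ f ∧ e ∈ G.edgeSet ∧ f ∈ G.edgeSet ∧ ∃ u, u ∈ e ∧ u ∈ f

theorem cfl_symm (G : SimpleGraph V) (x y : V ⊕ Sym2 V) (h : cfl G x y) : cfl G y x := by
  rcases x with u | e <;> rcases y with v | f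
  · exact SimpleGraph.Adj.symm (show G.Adj u v from h)
  · exact h
  · exact h
  · exact ⟨h.1.symm, h.2.2.1, h.2.1, h.2.2.2.choose, h.2.2.2.choose_spec.2,
      h.2.2.2.choose_spec.1⟩

theorem cfl_irr (G : SimpleGraph V) (x : V ⊕ Sym2 V) : ¬ cfl G x x := by
  rcases x with u | e
  · exact fun h => G.irrefl h
  · exact fun h => h.1 rfl

variable [Fintype V]

theorem cfl_deg (G : SimpleGraph V) (D : ℕ) (hD : ∀ v, (nb G v).card ≤ D) (x : V ⊕ Sym2 V) :
    (univ.filter (fun y => cfl G x y)).card < 2 * D + 1 := by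
  have hmem : ∀ v w, w ∈ nb G v ↔ G.Adj v w := fun v w => by
    unfold nb
    rw [mem_filter]
    simp
  rcases x with v | e
  · have h1 : (univ.filter (fun y => cfl G (Sum.inl v) y)) ⊆
        (nb G v).image Sum.inl ∪ (nb G v).image (fun w => Sum.inr s(v, w)) := by
      intro y hy
      rw [mem_filter] at hy
      rw [mem_union, mem_image, mem_image]
      rcases y with w | f
      · exact Or.inl ⟨w, (hmem v w).2 hy.2, rfl⟩
      · right
        obtain ⟨h2, h3⟩ := hy.2
        obtain ⟨w, rfl⟩ := h3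
        exact ⟨w, (hmem v w).2 h2, rfl⟩
    have h2 := (card_le_card h1).trans (card_union_le _ _)
    have h3 : ((nb G v).image (Sum.inl : V → V ⊕ Sym2 V)).card ≤ (nb G v).card := card_image_le
    have h4 : ((nb G v).image (fun w => (Sum.inr s(v, w) : V ⊕ Sym2 V))).card ≤
      (nb G v).card := card_image_le
    have h5 := hD v
    omega
  · by_cases he : e ∈ G.edgeSet
    · induction e using Sym2.ind with
      | h u v =>
        have huv : G.Adj u v := he
        have h1 : (univ.filter (fun y => cfl G (Sum.inr s(u, v)) y)) ⊆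
            ({Sum.inl u, Sum.inl v} : Finset (V ⊕ Sym2 V)) ∪
              (((nb G u).erase v).image (fun w => Sum.inr s(u, w)) ∪
                ((nb G v).erase u).image (fun w => Sum.inr s(v, w))) := by
          intro y hy
          rw [mem_filter] at hy
          rw [mem_union, mem_union, mem_image, mem_image, mem_insert, mem_singleton]
          rcases y with w | f
          · left
            rcases Sym2.mem_iff.1 hy.2.2 with h | h
            · exact Or.inl (by rw [h])
            · exact Or.inr (by rw [h])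
          · right
            obtain ⟨h2, _, h3, x, hx1, hx2⟩ := hy.2
            rcases Sym2.mem_iff.1 hx1 with rfl | rfl
            · left
              obtain ⟨w, rfl⟩ := hx2
              refine ⟨w, mem_erase.2 ⟨?_, (hmem _ w).2 h3⟩, rfl⟩
              rintro rfl
              exact h2 rfl
            · right
              obtain ⟨w, rfl⟩ := hx2
              refine ⟨w, mem_erase.2 ⟨?_, (hmem _ w).2 h3⟩, rfl⟩
              rintro rfl
              exact h2 Sym2.eq_swap
        have h2 := (card_le_card h1).trans ((card_union_le _ _).trans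
          (Nat.add_le_add_left (card_union_le _ _) _))
        have h3 : (((nb G u).erase v).image (fun w => (Sum.inr s(u, w) : V ⊕ Sym2 V))).card ≤
          ((nb G u).erase v).card := card_image_le
        have h4 : (((nb G v).erase u).image (fun w => (Sum.inr s(v, w) : V ⊕ Sym2 V))).card ≤
          ((nb G v).erase u).card := card_image_le
        have h5 := card_erase_of_mem ((hmem u v).2 huv)
        have h6 := card_erase_of_mem ((hmem v u).2 huv.symm)
        have h7 : ({Sum.inl u, Sum.inl v} : Finset (V ⊕ Sym2 V)).card ≤ 2 := card_le_two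
        have h8 := hD u
        have h9 := hD v
        have h10 : 0 < (nb G u).card := card_pos.2 ⟨v, (hmem u v).2 huv⟩
        have h11 : 0 < (nb G v).card := card_pos.2 ⟨u, (hmem v u).2 huv.symm⟩
        omega
    · rw [filter_eq_empty_iff.2, card_empty]
      · omega
      · intro y _ h
        rcases y with w | f
        · exact he h.1
        · exact he h.2.1

/-- the greedy case -/
theorem large_k (G : SimpleGraph V) (D k : ℕ) (hD : ∀ v, (nb G v).card ≤ D)
    (hk : 2 * D + 1 ≤ k) (H : G.Subgraph) (hH : IsDistThreeMatching H) :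
    EveryTotalColoringExtends H (Fin k) := by
  intro c₀ t₀ h0
  have hHadj : ∀ u v, H.Adj u v → H.spanningCoe.Adj u v := fun u v h => h
  obtain ⟨c, hc1, hc2⟩ := ext_greedy (cfl G) k (cfl_symm G) (cfl_irr G)
    (fun i => lt_of_lt_of_le (cfl_deg G D hD i) hk) (Sum.elim c₀ t₀)
    (univ.filter (fun x => Sum.elim (fun v => v ∈ H.verts) (fun e => e ∈ H.edgeSet) x))
    (by
      intro x hx y hy hxy
      rw [mem_filter] at hx hy
      rcases x with u | e <;> rcases y with v | f
      · exact h0.vertex u v (adj_of_verts hH hx.2 hy.2 hxy)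
      · simp only [Sum.elim_inl, Sum.elim_inr] at hx hy ⊢
        obtain ⟨_, w, rfl⟩ := hxy
        exact (h0.incidence u w hy.2).symm
      · simp only [Sum.elim_inl, Sum.elim_inr] at hx hy ⊢
        obtain ⟨_, w, rfl⟩ := hxy
        exact h0.incidence v w hx.2
      · simp only [Sum.elim_inr] at hx hy ⊢
        obtain ⟨h1, _, _, u, ⟨v, rfl⟩, ⟨w, rfl⟩⟩ := hxy
        have h2 : H.Adj u v := hx.2
        have h3 : H.Adj u w := hy.2
        have h4 := uniq hH h2 h3
        subst h4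
        exact absurd rfl h1) univ
  refine ⟨fun v => c (Sum.inl v), fun e => c (Sum.inr e), ⟨?_, ?_, ?_⟩, ?_, ?_⟩
  · intro u v h
    exact hc2 _ (mem_union_right _ (mem_univ _)) _ (mem_union_right _ (mem_univ _)) h
  · intro u v w h h' hvw
    refine hc2 _ (mem_union_right _ (mem_univ _)) _ (mem_union_right _ (mem_univ _))
      ⟨?_, h, h', u, Sym2.mem_mk_left _ _, Sym2.mem_mk_left _ _⟩
    intro he
    rcases Sym2.eq_iff.1 he with ⟨_, h1⟩ | ⟨h1, h2⟩
    · exact hvw h1
    · exact hvw (h2.trans h1)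
  · intro u v h
    exact hc2 _ (mem_union_right _ (mem_univ _)) _ (mem_union_right _ (mem_univ _))
      ⟨h, Sym2.mem_mk_left _ _⟩
  · intro v hv
    exact hc1 (Sum.inl v) (by rw [mem_filter]; exact ⟨mem_univ _, hv⟩)
  · intro e he
    exact hc1 (Sum.inr e) (by rw [mem_filter]; exact ⟨mem_univ _, he⟩)

end large

section iso
variable {V W : Type u}

theorem three_le (G : SimpleGraph V) {u v : V} (h0 : u ≠ v) (h1 : ¬ G.Adj u v)
    (h2 : ∀ w, G.Adj u w → ¬ G.Adj w v) : 3 ≤ G.edist u v := by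
  by_contra hlt
  rw [not_le] at hlt
  obtain ⟨p, hp⟩ := SimpleGraph.exists_walk_of_edist_ne_top (ne_top_of_lt hlt)
  rw [← hp] at hlt
  have hlt' : p.length < 3 := by exact_mod_cast hlt
  cases p with
  | nil => exact h0 rfl
  | cons h p =>
    cases p with
    | nil => exact h1 h
    | cons h' p =>
      cases p with
      | nil => exact h2 _ h h'
      | cons h'' p =>
        simp only [SimpleGraph.Walk.length_cons] at hlt'
        omega

/-- add isolated vertices -/
def GI (W : Type u) (G : SimpleGraph V) : SimpleGraph (V ⊕ W) where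
  Adj x y := ∃ u v, x = Sum.inl u ∧ y = Sum.inl v ∧ G.Adj u v
  symm := ⟨fun _ _ ⟨u, v, h1, h2, h3⟩ => ⟨v, u, h2, h1, h3.symm⟩⟩
  loopless := ⟨fun x ⟨u, v, h1, h2, h3⟩ => by
    rw [h1] at h2
    exact h3.ne (Sum.inl_injective h2)⟩

/-- the subgraph in the larger graph -/
def HI (W : Type u) {G : SimpleGraph V} (H : G.Subgraph) : (GI W G).Subgraph where
  verts := {x | ∃ u ∈ H.verts, x = Sum.inl u}
  Adj x y := ∃ u v, x = Sum.inl u ∧ y = Sum.inl v ∧ H.Adj u v
  adj_sub := fun ⟨u, v, h1, h2, h3⟩ => ⟨u, v, h1, h2, H.adj_sub h3⟩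
  edge_vert := fun ⟨u, _, h1, _, h3⟩ => ⟨u, H.edge_vert h3, h1⟩
  symm := ⟨fun _ _ ⟨u, v, h1, h2, h3⟩ => ⟨v, u, h2, h1, h3.symm⟩⟩

theorem HI_dist {G : SimpleGraph V} {H : G.Subgraph} (hH : IsDistThreeMatching H) :
    IsDistThreeMatching (HI W H) := by
  refine ⟨?_, ?_⟩
  · rintro x ⟨u, hu, rfl⟩
    obtain ⟨w, hw, hw'⟩ := hH.1 hu
    refine ⟨Sum.inl w, ⟨u, w, rfl, rfl, hw⟩, ?_⟩
    rintro y ⟨u', v', h1, rfl, h3⟩
    have h4 := Sum.inl_injective h1
    subst h4
    rw [hw' v' h3]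
  · rintro x ⟨u, hu, rfl⟩ y ⟨v, hv, rfl⟩ hxy hn
    have huv : u ≠ v := fun h => hxy (by rw [h])
    have h1 := hH.2 u hu v hv huv (fun h => hn ⟨u, v, rfl, rfl, h⟩)
    refine three_le _ hxy ?_ ?_
    · rintro ⟨u', v', h2, h3, h4⟩
      have h5 := Sum.inl_injective h2
      have h6 := Sum.inl_injective h3
      subst h5
      subst h6
      exact MP_db9399_all.FIN.edist_one G h4 h1
    · rintro w ⟨u', w', h2, h3, h4⟩ ⟨w'', v', h5, h6, h7⟩
      have h8 := Sum.inl_injective h2
      have h9 := Sum.inl_injective h6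
      have h10 := Sum.inl_injective (h3.symm.trans h5)
      subst h8
      subst h9
      subst h10
      exact MP_db9399_all.FIN.edist_two G h4 h7 h1

end iso

/-- conclusion for natural numbers as colours -/
def Ext {V : Type u} (G : SimpleGraph V) (d : ℕ) (H₀ : G.Subgraph) (c₀ : V → ℕ)
    (t₀ : Sym2 V → ℕ) : Prop :=
  ∃ (c₁ : V → ℕ) (t₁ : Sym2 V → ℕ), IsTotalColoring G c₁ t₁ ∧ (∀ v, c₁ v < d + 2) ∧
    (∀ e ∈ G.edgeSet, t₁ e < d + 2) ∧ (∀ v ∈ H₀.verts, c₁ v = c₀ v) ∧
    ∀ e ∈ H₀.edgeSet, t₁ e = t₀ e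

theorem nb_card_GI {V W : Type u} [Fintype V] [Fintype W] (G : SimpleGraph V) (d : ℕ)
    (h : ∀ v, (nb G v).card ≤ d) (x : V ⊕ W) : (nb (GI W G) x).card ≤ d := by
  rcases x with v | w
  · refine le_trans (card_le_card (t := (nb G v).image Sum.inl) ?_) (card_image_le.trans (h v))
    intro y hy
    unfold nb at hy ⊢
    rw [mem_filter] at hy
    obtain ⟨u, v', h1, rfl, h3⟩ := hy.2
    have h4 := Sum.inl_injective h1
    subst h4
    exact mem_image.2 ⟨v', mem_filter.2 ⟨mem_univ _, h3⟩, rfl⟩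
  · have : nb (GI W G) (Sum.inr w) = ∅ := by
      unfold nb
      rw [filter_eq_empty_iff]
      rintro y _ ⟨u, v', h1, _, _⟩
      exact Sum.inr_ne_inl h1
    rw [this, card_empty]
    exact Nat.zero_le _

theorem ext_iso {V W : Type u} (G : SimpleGraph V) (d : ℕ) (H₀ : G.Subgraph) (c₀ : V → ℕ)
    (t₀ : Sym2 V → ℕ) (hT : IsTotalColoring H₀.spanningCoe c₀ t₀)
    (hc : ∀ v ∈ H₀.verts, c₀ v < d + 2) (ht : ∀ e ∈ H₀.edgeSet, t₀ e < d + 2)
    (h : ∀ (c' : V ⊕ W → ℕ) (t' : Sym2 (V ⊕ W) → ℕ),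
      IsTotalColoring (HI W H₀).spanningCoe c' t' → (∀ v ∈ (HI W H₀).verts, c' v < d + 2) →
      (∀ e ∈ (HI W H₀).edgeSet, t' e < d + 2) → Ext (GI W G) d (HI W H₀) c' t') :
    Ext G d H₀ c₀ t₀ := by
  have hinj : Function.Injective (Sym2.map (Sum.inl : V → V ⊕ W)) :=
    Sym2.map.injective Sum.inl_injective
  set c' : V ⊕ W → ℕ := Sum.elim c₀ (fun _ => 0) with hc'
  set t' : Sym2 (V ⊕ W) → ℕ :=
    Function.extend (Sym2.map (Sum.inl : V → V ⊕ W)) t₀ (fun _ => 0) with ht'
  have htm : ∀ e, t' (Sym2.map Sum.inl e) = t₀ e := fun e => hinj.extend_apply _ _ e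
  have htm' : ∀ u v, t' s(Sum.inl u, Sum.inl v) = t₀ s(u, v) := fun u v => htm s(u, v)
  obtain ⟨c₁, t₁, h1, h2, h3, h4, h5⟩ := h c' t'
    ⟨by
      rintro x y ⟨u, v, rfl, rfl, h3⟩
      exact hT.vertex u v h3,
    by
      rintro x y z ⟨u, v, rfl, rfl, h3⟩ ⟨u', v', h4, rfl, h5⟩ hne
      have h6 := Sum.inl_injective h4
      subst h6
      rw [htm', htm']
      exact hT.edge u v v' h3 h5 (fun h => hne (by rw [h])),
    by
      rintro x y ⟨u, v, rfl, rfl, h3⟩
      rw [htm']
      exact hT.incidence u v h3⟩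
    (by
      rintro x ⟨u, hu, rfl⟩
      exact hc u hu)
    (by
      intro e
      induction e using Sym2.ind with
      | h x y =>
        rintro ⟨u, v, rfl, rfl, h3⟩
        rw [htm']
        exact ht _ h3)
  refine ⟨fun v => c₁ (Sum.inl v), fun e => t₁ (Sym2.map Sum.inl e), ⟨?_, ?_, ?_⟩, ?_, ?_, ?_, ?_⟩
  · intro u v huv
    exact h1.vertex _ _ ⟨u, v, rfl, rfl, huv⟩
  · intro u v w huv huw hne
    exact h1.edge _ _ _ ⟨u, v, rfl, rfl, huv⟩ ⟨u, w, rfl, rfl, huw⟩
      (fun h => hne (Sum.inl_injective h))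
  · intro u v huv
    exact h1.incidence _ _ ⟨u, v, rfl, rfl, huv⟩
  · intro v
    exact h2 _
  · intro e
    induction e using Sym2.ind with
    | h x y =>
      intro he
      exact h3 _ ⟨x, y, rfl, rfl, he⟩
  · intro v hv
    exact h4 (Sum.inl v) ⟨v, hv, rfl⟩
  · intro e
    induction e using Sym2.ind with
    | h x y =>
      intro he
      have h6 := h5 s(Sum.inl x, Sum.inl y) ⟨x, y, rfl, rfl, he⟩
      rw [htm'] at h6
      exact h6

theorem stmt_FIN2 : Stmt_FIN2.{u} := by
  intro hE hR η hη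
  obtain ⟨C, k0, d0, hC, hE'⟩ := hE (max 2 (1 / η)) ((by norm_num : (1 : ℝ) ≤ 2).trans
    (le_max_left _ _))
  obtain ⟨d1, hR'⟩ := hR C k0 hC
  have core : ∀ {V : Type u} [Fintype V] (G : SimpleGraph V) (d : ℕ) (H₀ : G.Subgraph)
      (c₀ : V → ℕ) (t₀ : Sym2 V → ℕ), d0 + d1 ≤ d → (Fintype.card V : ℝ) ≤ max 2 (1 / η) * d →
      d + 1 ≤ Fintype.card V → (∀ v, (nb G v).card ≤ d) → IsDistThreeMatching H₀ →
      IsTotalColoring H₀.spanningCoe c₀ t₀ → (∀ v ∈ H₀.verts, c₀ v < d + 2) →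
      (∀ e ∈ H₀.edgeSet, t₀ e < d + 2) → Ext G d H₀ c₀ t₀ := by
    intro V _ G d H₀ c₀ t₀ h1 h2 h3 h4 h5 h6 h7 h8
    obtain ⟨W, iW, G', X, g1, g2, g3, g4⟩ := hE' G d H₀ c₀ t₀ (by omega) h2 h3 h4 h5 h6 h7 h8
    obtain ⟨c, t, hct⟩ := hR' G' d X (by omega) g1 g2 g3
    exact g4 c t hct
  have core' : ∀ {V : Type u} [Fintype V] (G : SimpleGraph V) (d : ℕ) (H₀ : G.Subgraph)
      (c₀ : V → ℕ) (t₀ : Sym2 V → ℕ), d0 + d1 + 1 ≤ d → (Fintype.card V : ℝ) ≤ 1 / η * d →
      (∀ v, (nb G v).card ≤ d) → IsDistThreeMatching H₀ →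
      IsTotalColoring H₀.spanningCoe c₀ t₀ → (∀ v ∈ H₀.verts, c₀ v < d + 2) →
      (∀ e ∈ H₀.edgeSet, t₀ e < d + 2) → Ext G d H₀ c₀ t₀ := by
    intro V _ G d H₀ c₀ t₀ h1 h2 h4 h5 h6 h7 h8
    have hd0 : (0 : ℝ) ≤ d := Nat.cast_nonneg d
    by_cases h3 : d + 1 ≤ Fintype.card V
    · exact core G d H₀ c₀ t₀ (by omega)
        (h2.trans (mul_le_mul_of_nonneg_right (le_max_right _ _) hd0)) h3 h4 h5 h6 h7 h8
    · refine ext_iso (W := ULift.{u} (Fin (d + 1 - Fintype.card V))) G d H₀ c₀ t₀ h6 h7 h8 ?_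
      intro c' t' g1 g2 g3
      have hcard : Fintype.card (V ⊕ ULift.{u} (Fin (d + 1 - Fintype.card V))) = d + 1 := by
        rw [Fintype.card_sum, Fintype.card_ulift, Fintype.card_fin]
        omega
      refine core _ d _ c' t' (by omega) ?_ hcard.ge (nb_card_GI G d h4) (HI_dist h5) g1 g2 g3
      rw [hcard]
      have h9 : (1 : ℝ) ≤ d := by exact_mod_cast (by omega : 1 ≤ d)
      have h10 : 2 * (d : ℝ) ≤ max 2 (1 / η) * d :=
        mul_le_mul_of_nonneg_right (le_max_left _ _) hd0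
      push_cast
      linarith
  refine ⟨⌈(d0 + d1 + 1 : ℝ) / η⌉₊, ?_⟩
  intro V _ G _ k hn hηV hk H hH
  have hdeg : ∀ v, (nb G v).card ≤ G.maxDegree := by
    intro v
    refine le_trans (le_of_eq ?_) (G.degree_le_maxDegree v)
    rw [← SimpleGraph.card_neighborFinset_eq_degree]
    congr 1
    ext w
    rw [MP_db9399_all.FIN.mem_nb, SimpleGraph.mem_neighborFinset]
  by_cases hk2 : 2 * G.maxDegree + 1 ≤ k
  · exact large_k G G.maxDegree k hdeg hk2 H hH
  · intro c₀ t₀ hT
    obtain ⟨d, rfl⟩ : ∃ d, k = d + 2 := ⟨k - 2, by omega⟩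
    have hDd : G.maxDegree ≤ d := by omega
    have hDdR : (G.maxDegree : ℝ) ≤ d := by exact_mod_cast hDd
    have hVη : (Fintype.card V : ℝ) ≤ 1 / η * d := by
      rw [one_div, ← div_eq_inv_mul, le_div_iff₀ hη]
      linarith
    have hdl : d0 + d1 + 1 ≤ d := by
      have h1 : (d0 + d1 + 1 : ℝ) / η ≤ Fintype.card V :=
        (Nat.le_ceil _).trans (Nat.cast_le.2 hn)
      rw [div_le_iff₀ hη] at h1
      have h2 : (d0 + d1 + 1 : ℝ) ≤ d := by linarith
      exact_mod_cast h2
    obtain ⟨c₁, t₁, h1, h2, h3, h4, h5⟩ := core' G d H (fun v => (c₀ v).val)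
      (fun e => (t₀ e).val) hdl hVη (fun v => (hdeg v).trans hDd) hH
      ⟨fun u v h he => hT.vertex u v h (Fin.ext he),
        fun u v w h h' hne he => hT.edge u v w h h' hne (Fin.ext he),
        fun u v h he => hT.incidence u v h (Fin.ext he)⟩
      (fun v _ => (c₀ v).isLt) (fun e _ => (t₀ e).isLt)
    refine ⟨fun v => ⟨c₁ v, h2 v⟩, fun e => if h : t₁ e < d + 2 then ⟨t₁ e, h⟩ else 0,
      ⟨?_, ?_, ?_⟩, ?_, ?_⟩
    · intro u v h he
      exact h1.vertex u v h (Fin.ext_iff.1 he)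
    · intro u v w h h' hne he
      simp only [dif_pos (h3 s(u, v) h), dif_pos (h3 s(u, w) h')] at he
      exact h1.edge u v w h h' hne (Fin.ext_iff.1 he)
    · intro u v h he
      simp only [dif_pos (h3 s(u, v) h)] at he
      exact h1.incidence u v h (Fin.ext_iff.1 he)
    · intro v hv
      exact Fin.ext (h4 v hv)
    · intro e he
      have h6 := h5 e he
      have h7 : t₁ e < d + 2 := by
        rw [h6]
        exact (t₀ e).isLt
      simp only [dif_pos h7]
      exact Fin.ext h6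

end Pool.Agent.Work.MP_db9399_da.helper46
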