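import Pool.Agent.Work.MP_db9399_da.Pre2

/-! # DENSE-ALL phase 2: PREX, candidates in gadgets (block CNS, helper46) -/

set_option autoImplicit false

namespace Pool.Agent.Work.MP_db9399_da.helper46

open Finset Classical
open Pool.Agent.Work.MP_db9399_all (nb)
open Pool.Agent.Work.MP_db9399_da
open Pool.Agent.Work.MP_db9399_da.helper82 (alc)

universe u

section nu

/-- simple numerical consequences of `Nu` -/
theorem Nu.small {C g ρ K π κ ε ε2 σ τ ζ θ : ℝ} {M k k2 K5 L d : ℕ}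
    (h : Nu C g ρ K π κ ε ε2 σ τ ζ θ M k k2 K5 L d) :
    τ ≤ 1 / 100000000 ∧ ε ≤ 1 / 10000000000 ∧ ζ ≤ 1 / 100000000 ∧ θ ≤ 1 / 100000000 ∧
      κ ≤ 1 / 100000 ∧ (1000000000 : ℝ) ≤ d := by
  have hL : (1 : ℝ) ≤ L := by exact_mod_cast h.L1
  have hL2 : (1 : ℝ) ≤ (L : ℝ) ^ 2 := one_le_pow₀ hL
  have hL4 : (1 : ℝ) ≤ (L : ℝ) ^ 4 := one_le_pow₀ hL
  have hτ : τ ≤ 1 / 100000000 := by
    have h1 := h.τL
    have h2 : τ * 1 ≤ τ * (L : ℝ) ^ 2 := mul_le_mul_of_nonneg_left hL2 h.τ0.le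
    have h3 := h.σ1
    linarith
  have hε : ε ≤ 1 / 10000000000 := by
    have h1 := h.ετ
    linarith
  have hζ : ζ ≤ 1 / 100000000 := by
    have h1 := h.ζL
    have h2 : ζ * 1 ≤ ζ * (L : ℝ) ^ 2 := mul_le_mul_of_nonneg_left hL2 h.ζ0.le
    have h3 := h.σ1
    linarith
  have hζ1 : ζ ≤ 1 := hζ.trans (by norm_num)
  have hζ2 : ζ ^ 2 ≤ 1 := pow_le_one₀ h.ζ0.le hζ1
  have hζ20 : 0 ≤ ζ ^ 2 := by positivity
  have hθ : θ ≤ 1 / 100000000 := by
    have h1 := h.θL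
    have h2 : θ * 1 ≤ θ * (L : ℝ) ^ 2 := mul_le_mul_of_nonneg_left hL2 h.θ0.le
    have h3 : ζ ^ 2 * σ ≤ 1 * (1 / 100) := mul_le_mul hζ2 h.σ1 h.σ0.le (by norm_num)
    linarith
  have hκ : κ ≤ 1 / 100000 := by
    have h1 := h.κσ
    have h2 := h.σ1
    linarith
  refine ⟨hτ, hε, hζ, hθ, hκ, ?_⟩
  have h1 := h.dL
  have hd0 : (0 : ℝ) ≤ d := Nat.cast_nonneg _
  have hε0 := h.ε0
  have hθ0 := h.θ0
  have hσ0 := h.σ0
  have hκ0 := h.κ0
  have e1 : ε * θ ≤ 1 := mul_le_one₀ (hε.trans (by norm_num)) hθ0.le (hθ.trans (by norm_num))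
  have e2 : ε * θ * ζ ^ 2 ≤ 1 := mul_le_one₀ e1 hζ20 hζ2
  have e3 : ε * θ * ζ ^ 2 * σ ≤ 1 := mul_le_one₀ e2 hσ0.le (h.σ1.trans (by norm_num))
  have e4 : ε * θ * ζ ^ 2 * σ * κ ≤ 1 := mul_le_one₀ e3 hκ0.le (hκ.trans (by norm_num))
  have e5 : ε * θ * ζ ^ 2 * σ * κ * d ≤ 1 * d := mul_le_mul_of_nonneg_right e4 hd0
  have e6 : (10 : ℝ) ^ 9 * 1 ≤ 10 ^ 9 * (L : ℝ) ^ 4 :=
    mul_le_mul_of_nonneg_left hL4 (by positivity)
  linarith

end nu

section gad
variable {V : Type u} [Fintype V] {M : ℕ}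

theorem card_pV (P : Pcs V M) (n : Fin M) : (pV P n).card = Fintype.card (Ts P n) := by
  unfold pV
  rw [Fintype.card_subtype]

/-- the bulk neighbours of a vertex -/
theorem nb_bulk_card {C g ρ ζ θ : ℝ} (G : SimpleGraph V) (d : ℕ) (P : Pcs V M)
    (hD : DecP C g ρ ζ θ G d P) (x : V) (hx : x ∉ P.V0) :
    (1 - ζ) * d ≤ ((nb (bulk G P) x).card : ℝ) := by
  have h1 : nb G x ⊆ nb (bulk G P) x ∪ nb (thin G P) x := by
    intro y hy
    unfold nb at hy ⊢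
    rw [mem_filter] at hy
    rw [mem_union, mem_filter, mem_filter]
    by_cases h : (bulk G P).Adj x y
    · exact Or.inl ⟨mem_univ _, h⟩
    · exact Or.inr ⟨mem_univ _, hy.2, h⟩
  have h2 := (card_le_card h1).trans (card_union_le _ _)
  rw [hD.reg] at h2
  have h3 : (d : ℝ) ≤ (nb (bulk G P) x).card + (nb (thin G P) x).card := by exact_mod_cast h2
  have h4 := hD.thd x hx
  linarith

theorem nb_bulk_sub (G : SimpleGraph V) (P : Pcs V M) (x : V) :
    nb (bulk G P) x ⊆ pV P (P.pc x) := by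
  intro y hy
  unfold nb at hy
  rw [mem_filter] at hy
  unfold pV
  rw [mem_filter]
  exact ⟨mem_univ _, hy.2.2.2.1, hy.2.2.2.2.1.symm⟩

/-- a piece of type K which meets a gadget is inside -/
theorem piece_sub {C g ρ ζ θ : ℝ} (G : SimpleGraph V) (d : ℕ) (P : Pcs V M)
    (hD : DecP C g ρ ζ θ G d P) (hg : g ≤ 1 / 10) (hζ : ζ ≤ 1 / 100) (hd : (0 : ℝ) < d)
    (S : Finset V) (z : V) (hz : z ∈ P.V0) (hS : ∀ x ∈ S, ∀ y, G.Adj x y → y ∈ S ∨ y = z)
    (x : V) (hx : x ∈ S) (hxV : x ∉ P.V0) (hK : P.ty (P.pc x) = Ty.K) :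
    pV P (P.pc x) ⊆ S := by
  intro y hy
  have hy' := hy
  unfold pV at hy'
  rw [mem_filter] at hy'
  have h1 := nb_bulk_card G d P hD x hxV
  have h2 := nb_bulk_card G d P hD y hy'.2.1
  have h3 : nb (bulk G P) x ∪ nb (bulk G P) y ⊆ pV P (P.pc x) := by
    apply union_subset (nb_bulk_sub G P x)
    have := nb_bulk_sub G P y
    rwa [hy'.2.2] at this
  have h4 := card_le_card h3
  have h5 := card_union_add_card_inter (nb (bulk G P) x) (nb (bulk G P) y)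
  have h6 := hD.kU _ hK
  rw [← card_pV] at h6
  have h7 : ((nb (bulk G P) x).card : ℝ) + (nb (bulk G P) y).card ≤
      (pV P (P.pc x)).card + (nb (bulk G P) x ∩ nb (bulk G P) y).card := by
    have : (nb (bulk G P) x).card + (nb (bulk G P) y).card ≤
      (pV P (P.pc x)).card + (nb (bulk G P) x ∩ nb (bulk G P) y).card := by omega
    exact_mod_cast this
  have h8 : (0 : ℝ) < (nb (bulk G P) x ∩ nb (bulk G P) y).card := by nlinarith
  have h9 : 0 < (nb (bulk G P) x ∩ nb (bulk G P) y).card := by exact_mod_cast h8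
  obtain ⟨w, hw⟩ := card_pos.1 h9
  rw [mem_inter] at hw
  unfold nb at hw
  rw [mem_filter, mem_filter] at hw
  have hwx : G.Adj x w := hw.1.2.1
  have hwy : G.Adj y w := hw.2.2.1
  have hwV : w ∉ P.V0 := hw.1.2.2.2.1
  have hwS : w ∈ S := by
    rcases hS x hx w hwx with h | h
    · exact h
    · exact absurd (h ▸ hz) hwV
  rcases hS w hwS y hwy.symm with h | h
  · exact h
  · exact absurd (h ▸ hz) hy'.2.1

/-- the vertices of a gadget outside `V0` are one piece -/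
theorem gadget_piece {C g ρ ζ θ : ℝ} (G : SimpleGraph V) (d : ℕ) (P : Pcs V M)
    (hD : DecP C g ρ ζ θ G d P) (hg : g ≤ 1 / 10) (hζ : ζ ≤ 1 / 100) (hd : (2 : ℝ) ≤ d)
    (S : Finset V) (z : V) (hz : z ∈ P.V0) (hS : ∀ x ∈ S, ∀ y, G.Adj x y → y ∈ S ∨ y = z)
    (hSc : S.card ≤ d + 1) (hK : ∀ x ∈ S, x ∉ P.V0 → P.ty (P.pc x) = Ty.K)
    (x : V) (hx : x ∈ S) (hxV : x ∉ P.V0) :
    ∀ y, y ∈ pV P (P.pc x) ↔ y ∈ S ∧ y ∉ P.V0 := by
  have hd0 : (0 : ℝ) < d := by linarith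
  intro y
  constructor
  · intro hy
    refine ⟨piece_sub G d P hD hg hζ hd0 S z hz hS x hx hxV (hK x hx hxV) hy, ?_⟩
    unfold pV at hy
    rw [mem_filter] at hy
    exact hy.2.1
  · rintro ⟨hy, hyV⟩
    by_contra hne
    have h1 := piece_sub G d P hD hg hζ hd0 S z hz hS x hx hxV (hK x hx hxV)
    have h2 := piece_sub G d P hD hg hζ hd0 S z hz hS y hy hyV (hK y hy hyV)
    have hpc : P.pc y ≠ P.pc x := by
      intro h
      apply hne
      unfold pV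
      rw [mem_filter]
      exact ⟨mem_univ _, hyV, h⟩
    have h3 : Disjoint (pV P (P.pc x)) (pV P (P.pc y)) := by
      rw [disjoint_left]
      intro w hw hw'
      unfold pV at hw hw'
      rw [mem_filter] at hw hw'
      exact hpc (hw'.2.2.symm.trans hw.2.2)
    have h4 := card_le_card (union_subset h1 h2)
    rw [card_union_of_disjoint h3] at h4
    have h5 := hD.kL _ (hK x hx hxV)
    have h6 := hD.kL _ (hK y hy hyV)
    rw [← card_pV] at h5 h6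
    have h7 : ((pV P (P.pc x)).card : ℝ) + (pV P (P.pc y)).card ≤ d + 1 := by
      exact_mod_cast h4.trans hSc
    nlinarith

end gad

/-- neighbours of a super vertex in the thirds of a gadget -/
theorem gadget_thirds {C g ρ K π κ ε ε2 σ τ ζ θ : ℝ} {M k k2 K5 L : ℕ} {V : Type u} [Fintype V]
    (G : SimpleGraph V) (d : ℕ) (P : Pcs V M) (A : Pal) (X : HD V) (Ss : Finset ℕ)
    (t : V → V → ℕ) (c : V → ℕ) (Sp : Finset ℕ)
    (hX : Cx C g ρ K π κ ε ε2 σ τ ζ θ k k2 K5 L G d P A X Ss t c Sp)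
    (z : V) (hz : z ∈ X.S0) (i : Bool) (j : Fin 3) :
    (38 / 1000 : ℝ) * d ≤ (((nb G z).filter (fun x => x ∉ P.V0 ∧ x ∈ X.Gd z i ∧
      P.ty (P.pc x) = Ty.K ∧ P.th x = j)).card : ℝ) := by
  obtain ⟨-, -, hζ, hθ, -, hd⟩ := Nu.small hX.nu
  have hζ0 := hX.nu.ζ0
  have hg1 := hX.nu.g1
  obtain ⟨hz0, hzK⟩ := hX.sup z hz
  have hD := hX.dec
  have hgd2 := hX.hp.gd2 z hz i
  have hgd1 := hX.hp.gd1 z hz i
  have hgd3 := hX.hp.gd3 z hz i
  have hd2 : (2 : ℝ) ≤ d := by linarith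
  have hζ1 : ζ ≤ 1 / 100 := hζ.trans (by norm_num)
  have hW : (12 / 100 : ℝ) * d ≤ (((nb G z ∩ X.Gd z i) \ P.V0).card : ℝ) := by
    have h1 := card_le_card_sdiff_add_card (s := nb G z ∩ X.Gd z i) (t := P.V0)
    have h2 : d ≤ 8 * (((nb G z ∩ X.Gd z i) \ P.V0).card + P.V0.card) + 16 := by omega
    have h3 : (d : ℝ) ≤ 8 * (((nb G z ∩ X.Gd z i) \ P.V0).card + P.V0.card) + 16 := by
      exact_mod_cast h2
    have h4 := hD.V0c
    have h5 : θ * d ≤ 1 / 100000000 * d := mul_le_mul_of_nonneg_right hθ (by linarith)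
    linarith
  have hpos : 0 < ((nb G z ∩ X.Gd z i) \ P.V0).card := by
    have : (0 : ℝ) < (((nb G z ∩ X.Gd z i) \ P.V0).card : ℝ) := by linarith
    exact_mod_cast this
  obtain ⟨x, hx⟩ := card_pos.1 hpos
  rw [mem_sdiff, mem_inter] at hx
  have hK : P.ty (P.pc x) = Ty.K := hzK i x hx.1.2 hx.2
  have hG := gadget_piece G d P hD hg1 hζ1 hd2 (X.Gd z i) z hz0 hgd2 hgd1 (hzK i) x hx.1.2 hx.2
  have hcel : cel P (P.pc x) false = pV P (P.pc x) := by unfold cel; rw [if_pos hK]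
  have hEq : nb G z ∩ cel P (P.pc x) false = (nb G z ∩ X.Gd z i) \ P.V0 := by
    ext y
    rw [mem_inter, mem_sdiff, mem_inter, hcel, hG]
    tauto
  have hbig : ζ ^ 2 * d ≤ ((nb G z ∩ cel P (P.pc x) false).card : ℝ) := by
    rw [hEq]
    have h1 : ζ ^ 2 ≤ 1 / 100 := by nlinarith
    have h2 : ζ ^ 2 * d ≤ 1 / 100 * d := mul_le_mul_of_nonneg_right h1 (by linarith)
    linarith
  have hok := hX.pd.big z hz0 (P.pc x) false hbig
  have hrr : rr P (P.pc x) = 3 := by unfold rr; rw [if_pos hK]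
  have h6 := (abs_le.1 (hok j (by rw [hrr]; exact j.2))).1
  rw [hEq, hrr] at h6
  have h7 : nb G z ∩ clb P (P.pc x) false j ⊆ (nb G z).filter (fun x => x ∉ P.V0 ∧
      x ∈ X.Gd z i ∧ P.ty (P.pc x) = Ty.K ∧ P.th x = j) := by
    intro y hy
    rw [mem_inter] at hy
    unfold clb at hy
    rw [mem_filter, hcel, hG] at hy
    rw [mem_filter]
    have hyK : P.ty (P.pc y) = Ty.K := hzK i y hy.2.1.1 hy.2.1.2
    refine ⟨hy.1, hy.2.1.2, hy.2.1.1, hyK, ?_⟩
    have h8 := hy.2.2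
    unfold lbl at h8
    rwa [if_pos hyK] at h8
  have h8 : ((nb G z ∩ clb P (P.pc x) false j).card : ℝ) ≤ (((nb G z).filter
      (fun x => x ∉ P.V0 ∧ x ∈ X.Gd z i ∧ P.ty (P.pc x) = Ty.K ∧ P.th x = j)).card : ℝ) := by
    exact_mod_cast card_le_card h7
  push_cast at h6
  linarith

/-- CNS -/
theorem stmt_CNS : Stmt_CNS.{u} := by
  intro C g ρ K π κ ε ε2 σ τ ζ θ M k k2 K5 L V _ G d P A X Ss t c Sp hX z v f tz hz hv hf hinj hal
  obtain ⟨-, -, -, -, hκ, hd⟩ := Nu.small hX.nu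
  have hd0 : (0 : ℝ) ≤ d := Nat.cast_nonneg _
  have hA := hX.pal
  have hfin : ∀ j : Fin 3, f ∉ A.C j → (∀ x, x ∈ (nb G z).filter (fun x => x ∉ P.V0 ∧
      x ∈ X.Gd z false ∧ P.ty (P.pc x) = Ty.K ∧ P.th x = j) →
      tz x ∉ A.Q (P.pt v) → alc P A v (tz x)) →
      (d : ℝ) / 100 ≤ (((nb G z).filter (fun x => x ∉ P.V0 ∧
        (x ∈ X.Gd z false ∨ x ∈ X.Gd z true) ∧ alc P A x f ∧ alc P A v (tz x))).card : ℝ) := by
    intro j hj hv'
    have h1 := gadget_thirds G d P A X Ss t c Sp hX z hz false j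
    set T := (nb G z).filter (fun x => x ∉ P.V0 ∧
      x ∈ X.Gd z false ∧ P.ty (P.pc x) = Ty.K ∧ P.th x = j) with hT
    set F := (nb G z).filter (fun x => x ∉ P.V0 ∧
        (x ∈ X.Gd z false ∨ x ∈ X.Gd z true) ∧ alc P A x f ∧ alc P A v (tz x)) with hF
    have h2 : (T.filter (fun x => tz x ∈ A.Q (P.pt v))).card ≤ (A.Q (P.pt v)).card := by
      apply card_le_card_of_injOn tz
      · intro x hx
        rw [mem_coe, mem_filter] at hx
        exact mem_coe.2 hx.2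
      · intro x hx x' hx' he
        rw [mem_coe, mem_filter, hT, mem_filter] at hx hx'
        exact hinj (mem_coe.2 hx.1.1) (mem_coe.2 hx'.1.1) he
    have h3 : T ⊆ T.filter (fun x => tz x ∈ A.Q (P.pt v)) ∪ F := by
      intro x hx
      rw [mem_union]
      by_cases hq : tz x ∈ A.Q (P.pt v)
      · exact Or.inl (mem_filter.2 ⟨hx, hq⟩)
      · right
        have h4 := hv' x hx hq
        have hx' := hx
        rw [hT, mem_filter] at hx'
        rw [hF, mem_filter]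
        refine ⟨hx'.1, hx'.2.1, Or.inl hx'.2.2.1, ?_, h4⟩
        unfold alc
        rw [if_pos hx'.2.2.2.1, hx'.2.2.2.2]
        exact hj
    have h4 := (card_le_card h3).trans (card_union_le _ _)
    have h5 : (T.card : ℝ) ≤ (A.Q (P.pt v)).card + F.card := by
      have : T.card ≤ (A.Q (P.pt v)).card + F.card := by omega
      exact_mod_cast this
    have h6 := (hA.Qc (P.pt v)).2
    have h7 : κ * d ≤ 1 / 100000 * d := mul_le_mul_of_nonneg_right hκ hd0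
    linarith
  by_cases hK : P.ty (P.pc v) = Ty.K
  · have hf' := hf
    unfold alc at hf'
    rw [if_pos hK] at hf'
    apply hfin (P.th v) hf'
    intro x hx _
    rw [mem_filter] at hx
    have h1 := hal x hx.1 hx.2.1
    unfold alc at h1 ⊢
    rw [if_pos hx.2.2.2.1, hx.2.2.2.2] at h1
    rw [if_pos hK]
    exact h1
  · have hex : ∃ j : Fin 3, f ∉ A.C j := by
      by_cases h0 : f ∈ A.C 0
      · exact ⟨1, fun h1 => disjoint_left.1 (hA.Cdis 0 1 (by decide)) h0 h1⟩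
      · exact ⟨0, h0⟩
    obtain ⟨j, hj⟩ := hex
    apply hfin j hj
    intro x _ hq
    unfold alc
    rw [if_neg hK]
    exact hq

end Pool.Agent.Work.MP_db9399_da.helper46
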