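import Pool.Agent.Work.MP_db9399_da_helper94.FIXH
import Pool.Agent.Work.MP_db9399_da_helper46.CNS

/-! # DENSE-ALL phase 2: PREX, the bad edges at super vertices (block FIXS, helper46) -/

set_option autoImplicit false

namespace Pool.Agent.Work.MP_db9399_da.helper46

open Finset Classical
open Pool.Agent.Work.MP_db9399_all (nb)
open Pool.Agent.Work.MP_db9399_da
open Pool.Agent.Work.MP_db9399_da.helper82 (EC StepR alc)
open Pool.Agent.Work.MP_db9399_da.helper94 (mem_nb mem_Fc2 thin2_V0 mem_W0 S0_V0 inj_V0)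

universe u

/-- large colours are allowed everywhere -/
theorem alc_big {V : Type u} {M d : ℕ} {π κ : ℝ} (P : Pcs V M) (A : Pal) (hA : PalP A d π κ)
    (x : V) {b : ℕ} (hb : d + 2 ≤ b) : alc P A x b := by
  have h1 : ∀ j, b ∉ A.C j := by
    intro j hj
    have := mem_range.1 (hA.Clt j hj)
    omega
  unfold alc
  split_ifs
  · exact h1 _
  · intro h2
    cases hp : P.pt x
    · rw [hp] at h2
      exact h1 0 (hA.Q0 h2)
    · rw [hp] at h2
      exact h1 1 (hA.Q1 h2)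

section main
variable {C g ρ K π κ ε ε2 σ τ ζ θ : ℝ} {M k k2 K5 L : ℕ} {V : Type u} [Fintype V]
  {G : SimpleGraph V} {d : ℕ} {P : Pcs V M} {A : Pal} {X : HD V} {Ss : Finset ℕ}
  {t0 : V → V → ℕ} {c : V → ℕ} {Sp : Finset ℕ}

/-- one step: one bad edge is repaired -/
theorem oneS (hFRE : Stmt_FRE.{u}) (hSTPA : Stmt_STPA.{u})
    (cx : Cx C g ρ K π κ ε ε2 σ τ ζ θ k k2 K5 L G d P A X Ss t0 c Sp)
    {Bd : Finset ℕ} {s : ℕ} {t : V → V → ℕ} {U : Finset ℕ}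
    (h : PSt τ ζ G d P A X Ss t0 c Bd s t U) (hBd : Bd.card ≤ 100 * L) (hs : s ≤ 100 * L)
    {z v : V} (hz : z ∈ X.S0) (hG : G.Adj z v) (hH : ¬ X.H.Adj z v) (hne : t z v ∈ X.ne z v) :
    ∃ (t' : V → V → ℕ) (U' : Finset ℕ), PSt τ ζ G d P A X Ss t0 c Bd (s + 1) t' U' ∧
      t' z v ∉ X.ne z v ∧ ∀ z' ∈ X.S0, ∀ w, G.Adj z' w → ¬ X.H.Adj z' w →
        t' z' w ∈ X.ne z' w → t z' w ∈ X.ne z' w := by
  have hz0 := S0_V0 cx hz
  have hzW : z ∈ W0 X := (mem_W0 X z).2 (Or.inr hz)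
  have hbr := h.br z hz v hG hH hne
  have hne0 : t0 z v ∈ X.ne z v := hbr ▸ hne
  obtain ⟨hv0, -⟩ := cx.sh.badV z hz v hG hne0
  have hvV : v ∉ X.VH := by
    intro h1
    rw [cx.hp.neV z hz v (Or.inl h1)] at hne
    exact notMem_empty _ hne
  have hblt : t z v < d + 2 := mem_range.1 ((cx.hp.ne2 z hz v).1 hne)
  have hbBd : t z v ∈ Bd := by
    apply h.B0
    unfold Bd0
    rw [mem_union, mem_union]
    left
    right
    rw [mem_image]
    refine ⟨(z, v), ?_, hbr.symm⟩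
    rw [mem_filter, mem_product]
    exact ⟨⟨hz, mem_univ _⟩, hG, hne0⟩
  have hal : alc P A v (t z v) := by
    apply h.al v hv0 _ _ hblt
    rw [mem_Fc2]
    exact ⟨z, (thin2_V0 G X P hz0 hG).symm, h.ec.sym v z⟩
  have hinj := inj_V0 h hz0
  have halx : ∀ x ∈ nb G z, x ∉ P.V0 → alc P A x (t z x) := by
    intro x hx hx0
    rw [mem_nb] at hx
    by_cases hlt : t z x < d + 2
    · apply h.al x hx0 _ _ hlt
      rw [mem_Fc2]
      exact ⟨z, (thin2_V0 G X P hz0 hx).symm, h.ec.sym x z⟩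
    · exact alc_big P A cx.pal x (by omega)
  have hC := stmt_CNS C g ρ K π κ ε ε2 σ τ ζ θ M k k2 K5 L G d P A X Ss t0 c Sp cx z v (t z v)
    (t z) hz hv0 hal hinj halx
  obtain ⟨Cs, hCs⟩ : ∃ Cs : Finset V, Cs = (nb G z).filter (fun x => x ∉ P.V0 ∧
      (x ∈ X.Gd z false ∨ x ∈ X.Gd z true) ∧ alc P A x (t z v) ∧ alc P A v (t z x)) := ⟨_, rfl⟩
  rw [← hCs] at hC
  have hσ1 := cx.nu.σ1
  have hd : (0 : ℝ) ≤ d := Nat.cast_nonneg d
  have hCsc : σ / 10 * d ≤ (Cs.card : ℝ) := by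
    have h1 : σ / 10 * d ≤ 1 / 100 * d := mul_le_mul_of_nonneg_right (by linarith) hd
    linarith
  have hCsub : Cs ⊆ nb G z := by
    rw [hCs]
    exact filter_subset _ _
  have hCs0 : ∀ x ∈ Cs, x ∉ P.V0 := by
    intro x hx
    rw [hCs, mem_filter] at hx
    exact hx.2.1
  obtain ⟨x, hxC, hxv, hxV, hxH, hxP1, hxn, hxZ, hx3, hxf, hxne⟩ :=
    hFRE C g ρ K π κ ε ε2 σ τ ζ θ M k k2 K5 L G d P A X Ss t0 c Sp cx Bd s t U h hBd hs z v
      (t z v) Cs hz0 hv0 hCsub hCs0 hCsc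
  have hxG : G.Adj z x := (mem_nb G z x).1 (hCsub hxC)
  have hx0 := hCs0 x hxC
  rw [hCs, mem_filter] at hxC
  obtain ⟨_, _, hxGd, hxa1, hxa2⟩ := hxC
  have hnex : X.ne z x = ∅ := by
    rcases hxGd with h1 | h1
    · exact (cx.hp.gd4 z hz false x h1).2.2.2
    · exact (cx.hp.gd4 z hz true x h1).2.2.2
  have hfn : t z v ∉ X.ne z x := by
    rw [hnex]
    exact notMem_empty _
  obtain ⟨t', hst, hP⟩ := hSTPA C g ρ K π κ ε ε2 σ τ ζ θ M k k2 K5 L G d P A X Ss t0 c Sp cx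
    Bd s t U h z v x (t z v) (t z x) (t z v) hzW hz0 hG hxG (Ne.symm hxv) hv0 hvV hx0 hxV rfl rfl
    (Or.inl ⟨rfl, mem_union_right _ hbBd⟩) hxP1 hxn hxZ hx3 hxf hxa2 hxa1 (Or.inl rfl)
    (fun hzS => ⟨hxne hzS, hfn⟩)
  refine ⟨t', _, hP, ?_, ?_⟩
  · rw [hst.zv]
    exact hxne hz
  · intro z' hz' w hw hHw hb
    have hz'0 := S0_V0 cx hz'
    by_cases h1 : (z' = z ∧ w = v) ∨ (z' = v ∧ w = z)
    · rcases h1 with ⟨rfl, rfl⟩ | ⟨rfl, _⟩
      · exact hne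
      · exact absurd hz'0 hv0
    · by_cases h2 : (z' = z ∧ w = x) ∨ (z' = x ∧ w = z)
      · rcases h2 with ⟨rfl, rfl⟩ | ⟨rfl, _⟩
        · rw [hnex] at hb
          exact absurd hb (notMem_empty _)
        · exact absurd hz'0 hx0
      · rw [hst.old z' w h1 h2] at hb
        exact hb

end main

/-- FIXS -/
theorem stmt_FIXS (hFRE : Stmt_FRE.{u}) (hSTPA : Stmt_STPA.{u}) : Stmt_FIXS.{u} := by
  intro C g ρ K π κ ε ε2 σ τ ζ θ M k k2 K5 L V _ G d P A X Ss t0 c Sp cx Bd s t U hP hBd hs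
  have hKL := cx.nu.K5L
  have key : ∀ (n : ℕ) (s' : ℕ) (t' : V → V → ℕ) (U' : Finset ℕ), s' + n ≤ s + K5 →
      PSt τ ζ G d P A X Ss t0 c Bd s' t' U' →
      ((X.S0 ×ˢ (univ : Finset V)).filter (fun p => G.Adj p.1 p.2 ∧ ¬ X.H.Adj p.1 p.2 ∧
        t' p.1 p.2 ∈ X.ne p.1 p.2)).card ≤ n →
      ∃ (t'' : V → V → ℕ) (U'' : Finset ℕ) (s'' : ℕ), s'' ≤ s + K5 ∧
        PSt τ ζ G d P A X Ss t0 c Bd s'' t'' U'' ∧ gS G X t'' := by
    intro n
    induction n with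
    | zero =>
      intro s' t' U' hs' hP' hn
      refine ⟨t', U', s', by omega, hP', ?_⟩
      intro z hz w hG hH hb
      have h1 : (z, w) ∈ (X.S0 ×ˢ (univ : Finset V)).filter (fun p => G.Adj p.1 p.2 ∧
          ¬ X.H.Adj p.1 p.2 ∧ t' p.1 p.2 ∈ X.ne p.1 p.2) := by
        rw [mem_filter, mem_product]
        exact ⟨⟨hz, mem_univ _⟩, hG, hH, hb⟩
      have h2 := card_pos.2 ⟨_, h1⟩
      omega
    | succ n ih =>
      intro s' t' U' hs' hP' hn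
      by_cases hemp : ((X.S0 ×ˢ (univ : Finset V)).filter (fun p => G.Adj p.1 p.2 ∧
          ¬ X.H.Adj p.1 p.2 ∧ t' p.1 p.2 ∈ X.ne p.1 p.2)) = ∅
      · exact ih s' t' U' (by omega) hP' (by rw [hemp]; simp)
      · obtain ⟨⟨z, v⟩, hzm⟩ := nonempty_iff_ne_empty.2 hemp
        have hzm' := hzm
        rw [mem_filter, mem_product] at hzm'
        obtain ⟨⟨hz, _⟩, hG, hH, hb⟩ := hzm'
        obtain ⟨t1, U1, hP1, hg1, ho1⟩ := oneS hFRE hSTPA cx hP' (by omega) (by omega) hz hG hH hb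
        refine ih (s' + 1) t1 U1 (by omega) hP1 ?_
        have hsub : ((X.S0 ×ˢ (univ : Finset V)).filter (fun p => G.Adj p.1 p.2 ∧
            ¬ X.H.Adj p.1 p.2 ∧ t1 p.1 p.2 ∈ X.ne p.1 p.2)) ⊆
            ((X.S0 ×ˢ (univ : Finset V)).filter (fun p => G.Adj p.1 p.2 ∧
              ¬ X.H.Adj p.1 p.2 ∧ t' p.1 p.2 ∈ X.ne p.1 p.2)).erase (z, v) := by
          rintro ⟨y, w⟩ hy
          rw [mem_filter, mem_product] at hy
          obtain ⟨⟨hyS, _⟩, hyG, hyH, hyb⟩ := hy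
          rw [mem_erase, mem_filter, mem_product]
          refine ⟨?_, ⟨hyS, mem_univ _⟩, hyG, hyH, ho1 y hyS w hyG hyH hyb⟩
          intro he
          rw [Prod.mk.injEq] at he
          obtain ⟨rfl, rfl⟩ := he
          exact hg1 hyb
        have h3 := card_le_card hsub
        rw [card_erase_of_mem hzm] at h3
        omega
  refine key K5 s t U (le_refl _) hP (le_trans (card_le_card ?_) cx.sh.bad)
  rintro ⟨z, w⟩ hp
  rw [mem_filter, mem_product] at hp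
  obtain ⟨⟨hz, _⟩, hG, hH, hb⟩ := hp
  rw [mem_filter, mem_product]
  refine ⟨⟨hz, mem_univ _⟩, hG, ?_⟩
  have h1 := hP.br z hz w hG hH hb
  rw [← h1]
  exact hb

end Pool.Agent.Work.MP_db9399_da.helper46
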