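import Pool.Agent.Work.MP_db9399_da_helper46.LOCNU
import Pool.Agent.Work.MP_db9399_da.Local2

/-!
# MP_db9399, DENSE-ALL, phase 2, block LOCN2 (helper46)
-/

set_option autoImplicit false

namespace Pool.Agent.Work.MP_db9399_da.helper46

open Pool.Agent.Work.MP_db9399_da (LI2 Stmt_LOCN2)

universe u

theorem stmt_LOCN2 : Stmt_LOCN2.{u} := by
  intro C g ρ K hC hg hρ
  obtain ⟨π0, hπ0, h⟩ := locnK.{u} K C g ρ hC hg hρ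
  refine ⟨π0, hπ0, fun π hπ hπ' => ?_⟩
  obtain ⟨κ0, hκ0, h'⟩ := h π hπ hπ'
  refine ⟨κ0, hκ0, fun κ hκ hκ' => ?_⟩
  obtain ⟨θ, d0, hθ, h''⟩ := h' κ hκ hκ'
  exact ⟨θ, d0, hθ, fun G d sd pt Q P2 F hd h hN => h'' G d sd pt Q P2 F hd
    ⟨h.VC, h.Flt, h.Fx, h.load, h.Qlt, h.Plt, h.QQ, h.QP, h.Qc, h.Pc, h.FQ, h.sgQ, h.sm2, h.smQ,
      h.cutG, h.cutP⟩ hN⟩

end Pool.Agent.Work.MP_db9399_da.helper46
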