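import Pool.Agent.Work.MP_db9399_da_helper99.EMBA
import Pool.Agent.Work.MP_db9399_all_helper75.FIN

/-!
# MP_db9399, DENSE-ALL, phase 2: the matching data and the translation back (helper46)
-/

set_option autoImplicit false

namespace Pool.Agent.Work.MP_db9399_da.helper46

open Finset Classical
open Pool.Agent.Work.MP_db9399_all (nb)
open Pool.Agent.Work.MP_db9399_all.FIN (adj_of_verts edist_two)
open Pool.Agent.Work.MP_db9399_da.helper99.EMBAux (Mt)
open _root_.MP_db9399_co (IsTotalColoring IsDistThreeMatching)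

universe u

theorem mto {V : Type u} [Fintype V] (G : SimpleGraph V) (H₀ : G.Subgraph)
    (h : IsDistThreeMatching H₀) : ∃ (pr : V → V) (fs : V → Bool),
      Mt G (univ.filter (fun v => v ∈ H₀.verts)) pr fs ∧
      ∀ v w, H₀.Adj v w ↔ v ∈ H₀.verts ∧ w = pr v := by
  have hU : ∀ v, v ∈ univ.filter (fun v => v ∈ H₀.verts) ↔ v ∈ H₀.verts := fun v => by simp
  choose! pr hpr using fun v (hv : v ∈ H₀.verts) => h.1 hv
  have hiff : ∀ v w, H₀.Adj v w ↔ v ∈ H₀.verts ∧ w = pr v := by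
    intro v w
    constructor
    · intro hvw
      have hv := H₀.edge_vert hvw
      exact ⟨hv, (hpr v hv).2 w hvw⟩
    · rintro ⟨hv, rfl⟩
      exact (hpr v hv).1
  have hprV : ∀ v ∈ H₀.verts, pr v ∈ H₀.verts := fun v hv => H₀.edge_vert (hpr v hv).1.symm
  have hpp : ∀ v ∈ H₀.verts, pr (pr v) = v := fun v hv =>
    ((hiff (pr v) v).1 (hpr v hv).1.symm).2.symm
  refine ⟨pr, fun v => decide ((Fintype.equivFin V v) < (Fintype.equivFin V (pr v))),
    ⟨?_, ?_, ?_, ?_, ?_, ?_⟩, hiff⟩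
  · intro u hu
    rw [hU] at hu ⊢
    exact hprV u hu
  · intro u hu
    rw [hU] at hu
    exact H₀.adj_sub (hpr u hu).1
  · intro u hu
    rw [hU] at hu
    exact hpp u hu
  · intro u hu v hv huv
    rw [hU] at hu hv
    exact ((hiff u v).1 (adj_of_verts h hu hv huv)).2
  · intro u hu v hv w hwu hwv
    rw [hU] at hu hv
    by_cases huv : u = v
    · exact Or.inl huv
    · right
      by_contra hn
      have h1 : ¬ H₀.Adj u v := fun hh => hn ((hiff u v).1 hh).2
      exact edist_two G hwu.symm hwv (h.2 u hu v hv huv h1)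
  · intro u hu
    rw [hU] at hu
    rw [hpp u hu]
    have hne : u ≠ pr u := (H₀.adj_sub (hpr u hu).1).ne
    have hne' : Fintype.equivFin V u ≠ Fintype.equivFin V (pr u) :=
      fun hh => hne ((Fintype.equivFin V).injective hh)
    intro he
    rw [decide_eq_decide] at he
    rcases lt_or_gt_of_ne hne' with h1 | h1
    · exact absurd (he.2 h1) (not_lt.2 h1.le)
    · exact absurd (he.1 h1) (not_lt.2 h1.le)

theorem back {V W : Type u} [Fintype V] [Fintype W] (G : SimpleGraph V) (H₀ : G.Subgraph)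
    (d : ℕ) (c₀ : V → ℕ) (t₀ : Sym2 V → ℕ) (pr : V → V) (G' : SimpleGraph W) (r : V → W)
    (c : W → ℕ) (t : W → W → ℕ)
    (h1 : ∀ v w, H₀.Adj v w ↔ v ∈ H₀.verts ∧ w = pr v)
    (h2 : ∀ u ∈ H₀.verts, ∀ v ∈ H₀.verts, G.Adj u v → H₀.Adj u v)
    (h3 : IsTotalColoring H₀.spanningCoe c₀ t₀) (h4 : ∀ v ∈ H₀.verts, c₀ v < d + 2)
    (h5 : ∀ e ∈ H₀.edgeSet, t₀ e < d + 2)
    (h6 : ∀ v w, G.Adj v w → ¬ H₀.Adj v w → G'.Adj (r v) (r w))
    (h7 : ∀ u v w, G.Adj u v → G.Adj u w → r v = r w → v = w)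
    (h8 : ∀ w, c w < d + 2) (h9 : ∀ v w, t v w = t w v)
    (h10 : ∀ v w, G'.Adj v w → t v w < d + 2)
    (h11 : ∀ v, Set.InjOn (t v) (nb G' v : Set W)) (h12 : ∀ v w, G'.Adj v w → t v w ≠ c v)
    (h13 : ∀ v w, v ∉ H₀.verts → w ∉ H₀.verts → G.Adj v w → c (r v) ≠ c (r w))
    (h14 : ∀ u v, u ∈ H₀.verts → v ∉ H₀.verts → G.Adj u v →
      c (r v) ≠ c₀ u ∧ t (r u) (r v) ≠ c₀ u ∧ t (r u) (r v) ≠ t₀ s(u, pr u)) :
    ∃ (c₁ : V → ℕ) (t₁ : Sym2 V → ℕ), IsTotalColoring G c₁ t₁ ∧ (∀ v, c₁ v < d + 2) ∧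
      (∀ e ∈ G.edgeSet, t₁ e < d + 2) ∧ (∀ v ∈ H₀.verts, c₁ v = c₀ v) ∧
      ∀ e ∈ H₀.edgeSet, t₁ e = t₀ e := by
  set tl : Sym2 V → ℕ := Sym2.lift ⟨fun v w => t (r v) (r w), fun v w => h9 _ _⟩ with htl
  set c₁ : V → ℕ := fun v => if v ∈ H₀.verts then c₀ v else c (r v) with hc₁
  set t₁ : Sym2 V → ℕ := fun e => if e ∈ H₀.edgeSet then t₀ e else tl e with ht₁
  have cin : ∀ v, v ∈ H₀.verts → c₁ v = c₀ v := fun v hv => if_pos hv
  have cout : ∀ v, v ∉ H₀.verts → c₁ v = c (r v) := fun v hv => if_neg hv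
  have tin : ∀ v w, H₀.Adj v w → t₁ s(v, w) = t₀ s(v, w) := fun v w hv => if_pos hv
  have tout : ∀ v w, ¬ H₀.Adj v w → t₁ s(v, w) = t (r v) (r w) := fun v w hv => if_neg hv
  have hmem : ∀ v w, w ∈ (nb G' v : Set W) ↔ G'.Adj v w := fun v w => by
    rw [mem_coe]
    unfold nb
    rw [mem_filter]
    simp
  have hnot : ∀ u v, u ∈ H₀.verts → G.Adj u v → ¬ H₀.Adj u v → v ∉ H₀.verts :=
    fun u v hu huv hn hv => hn (h2 u hu v hv huv)
  refine ⟨c₁, t₁, ⟨?_, ?_, ?_⟩, ?_, ?_, cin, ?_⟩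
  · intro u v huv
    by_cases hu : u ∈ H₀.verts
    · by_cases hv : v ∈ H₀.verts
      · rw [cin u hu, cin v hv]
        exact h3.vertex u v (h2 u hu v hv huv)
      · rw [cin u hu, cout v hv]
        exact (h14 u v hu hv huv).1.symm
    · by_cases hv : v ∈ H₀.verts
      · rw [cout u hu, cin v hv]
        exact (h14 v u hv hu huv.symm).1
      · rw [cout u hu, cout v hv]
        exact h13 u v hu hv huv
  · have key : ∀ u v w, G.Adj u v → G.Adj u w → v ≠ w → H₀.Adj u v → t₁ s(u, v) ≠ t₁ s(u, w) := by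
      intro u v w huv huw hvw hH
      have hu := H₀.edge_vert hH
      have hvp : v = pr u := ((h1 u v).1 hH).2
      have hHw : ¬ H₀.Adj u w := fun hh => hvw (hvp.trans ((h1 u w).1 hh).2.symm)
      rw [tin u v hH, tout u w hHw, hvp]
      exact (h14 u w hu (hnot u w hu huw hHw) huw).2.2.symm
    intro u v w huv huw hvw
    by_cases hHv : H₀.Adj u v
    · exact key u v w huv huw hvw hHv
    · by_cases hHw : H₀.Adj u w
      · exact (key u w v huw huv hvw.symm hHw).symm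
      · rw [tout u v hHv, tout u w hHw]
        intro he
        refine hvw (h7 u v w huv huw (h11 (r u) ?_ ?_ he))
        · rw [hmem]
          exact h6 u v huv hHv
        · rw [hmem]
          exact h6 u w huw hHw
  · intro u v huv
    by_cases hH : H₀.Adj u v
    · rw [tin u v hH, cin u (H₀.edge_vert hH)]
      exact h3.incidence u v hH
    · rw [tout u v hH]
      by_cases hu : u ∈ H₀.verts
      · rw [cin u hu]
        exact (h14 u v hu (hnot u v hu huv hH) huv).2.1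
      · rw [cout u hu]
        exact h12 _ _ (h6 u v huv hH)
  · intro v
    by_cases hv : v ∈ H₀.verts
    · rw [cin v hv]
      exact h4 v hv
    · rw [cout v hv]
      exact h8 _
  · intro e
    induction e using Sym2.ind with
    | h v w =>
      intro he
      by_cases hH : H₀.Adj v w
      · rw [tin v w hH]
        exact h5 _ hH
      · rw [tout v w hH]
        exact h10 _ _ (h6 v w he hH)
  · intro e he
    exact if_pos he

end Pool.Agent.Work.MP_db9399_da.helper46
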