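import Pool.Agent.Work.MP_db9399_all.Interface

/-!
# MP_db9399, DENSE-ALL, phase 2: the gadgets of EMB2 (helper46)
-/

set_option autoImplicit false

namespace Pool.Agent.Work.MP_db9399_da.helper46

open Finset Classical
open Pool.Agent.Work.MP_db9399_all (nb)

universe u

namespace GADAux

theorem mem_nb {V : Type u} [Fintype V] {G : SimpleGraph V} {v w : V} :
    w ∈ nb G v ↔ G.Adj v w := by
  unfold nb
  rw [mem_filter]
  simp

theorem card_lt {n m : ℕ} (h : m ≤ n) : (univ.filter (fun x : Fin n => x.val < m)).card = m := by
  have h1 : (univ.filter (fun x : Fin n => x.val < m)).map Fin.valEmbedding = range m := by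
    ext k
    rw [mem_map, mem_range]
    constructor
    · rintro ⟨x, hx, rfl⟩
      exact (mem_filter.1 hx).2
    · intro hk
      exact ⟨⟨k, by omega⟩, mem_filter.2 ⟨mem_univ _, hk⟩, rfl⟩
  rw [← card_map Fin.valEmbedding, h1, card_range]

/-- adjacency in the graph with gadgets -/
def adj {W J : Type u} (G : SimpleGraph W) (d : ℕ) (own : J → W) (q : J → ℕ) :
    W ⊕ (J × Fin (d + 1)) → W ⊕ (J × Fin (d + 1)) → Prop
  | Sum.inl a, Sum.inl b => G.Adj a b
  | Sum.inl w, Sum.inr p => own p.1 = w ∧ p.2.val < 2 * q p.1
  | Sum.inr p, Sum.inl w => own p.1 = w ∧ p.2.val < 2 * q p.1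
  | Sum.inr p, Sum.inr r => p.1 = r.1 ∧ p.2 ≠ r.2 ∧
      ¬ (p.2.val < 2 * q p.1 ∧ p.2.val / 2 = r.2.val / 2)

/-- the graph with gadgets -/
def gr {W J : Type u} (G : SimpleGraph W) (d : ℕ) (own : J → W) (q : J → ℕ) :
    SimpleGraph (W ⊕ (J × Fin (d + 1))) where
  Adj := adj G d own q
  symm := ⟨by
    rintro (a | ⟨j, x⟩) (b | ⟨j', y⟩) h
    · exact SimpleGraph.Adj.symm (show G.Adj a b from h)
    · exact h
    · exact h
    · obtain ⟨h1, h2, h3⟩ := h
      have h4 : j = j' := h1
      subst h4
      refine ⟨rfl, h2.symm, fun h5 => h3 ?_⟩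
      have h6 : y.val < 2 * q j ∧ y.val / 2 = x.val / 2 := h5
      show x.val < 2 * q j ∧ x.val / 2 = y.val / 2
      omega⟩
  loopless := ⟨by
    rintro (a | ⟨j, x⟩) h
    · exact SimpleGraph.Adj.ne (show G.Adj a a from h) rfl
    · exact h.2.1 rfl⟩

end GADAux

open GADAux

/-- gadgets: `K_(d+1)` minus a matching with `q j` edges whose ends are joined to `own j` -/
theorem gad {W J : Type u} [Fintype W] [Fintype J] (G : SimpleGraph W) (d : ℕ) (own : J → W)
    (q : J → ℕ) (hq : ∀ j, 2 * q j ≤ d) :
    ∃ G1 : SimpleGraph (W ⊕ (J × Fin (d + 1))),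
      (∀ a b, G1.Adj (Sum.inl a) (Sum.inl b) ↔ G.Adj a b) ∧
      (∀ w, (nb G1 (Sum.inl w)).card =
        (nb G w).card + ∑ j ∈ univ.filter (fun j => own j = w), 2 * q j) ∧
      (∀ j x y, G1.Adj (Sum.inr (j, x)) y → (∃ x', y = Sum.inr (j, x')) ∨
        y = Sum.inl (own j)) ∧
      (∀ p, (nb G1 (Sum.inr p)).card = d) ∧
      (∀ j, (univ.filter (fun x => G1.Adj (Sum.inl (own j)) (Sum.inr (j, x)))).card =
        2 * q j) := by
  have hj : ∀ j, (univ.filter (fun x : Fin (d + 1) => x.val < 2 * q j)).card = 2 * q j :=
    fun j => card_lt (by have := hq j; omega)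
  refine ⟨gr G d own q, fun a b => Iff.rfl, ?_, ?_, ?_, ?_⟩
  · intro w
    have h1 : nb (gr G d own q) (Sum.inl w) = (nb G w).image Sum.inl ∪
        (univ.filter (fun j => own j = w)).biUnion (fun j =>
          (univ.filter (fun x : Fin (d + 1) => x.val < 2 * q j)).image
            (fun x => Sum.inr (j, x))) := by
      ext y
      rw [mem_nb, mem_union, mem_image, mem_biUnion]
      rcases y with b | ⟨j, x⟩
      · constructor
        · intro h
          exact Or.inl ⟨b, mem_nb.2 h, rfl⟩
        · rintro (⟨b', hb, he⟩ | ⟨j, _, h⟩)
          · have := Sum.inl_injective he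
            subst this
            have h2 : G.Adj w b' := mem_nb.1 hb
            exact h2
          · rw [mem_image] at h
            obtain ⟨x, _, he⟩ := h
            exact absurd he Sum.inr_ne_inl
      · constructor
        · intro h
          right
          have h' : own j = w ∧ x.val < 2 * q j := h
          exact ⟨j, mem_filter.2 ⟨mem_univ _, h'.1⟩,
            mem_image.2 ⟨x, mem_filter.2 ⟨mem_univ _, h'.2⟩, rfl⟩⟩
        · rintro (⟨b', _, he⟩ | ⟨j', hj', h⟩)
          · exact absurd he Sum.inl_ne_inr
          · rw [mem_image] at h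
            obtain ⟨x', hx', he⟩ := h
            have h2 := Sum.inr_injective he
            have h3 : j' = j := congrArg Prod.fst h2
            have h4 : x' = x := congrArg Prod.snd h2
            subst h3
            subst h4
            exact ⟨(mem_filter.1 hj').2, (mem_filter.1 hx').2⟩
    rw [h1, card_union_of_disjoint, card_image_of_injective _ Sum.inl_injective, card_biUnion]
    · congr 1
      refine sum_congr rfl fun j _ => ?_
      rw [card_image_of_injective, hj]
      intro x y hxy
      exact congrArg Prod.snd (Sum.inr_injective hxy)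
    · intro j _ j' _ hne
      show Disjoint _ _
      rw [disjoint_left]
      intro y hy hy'
      rw [mem_image] at hy hy'
      obtain ⟨x, _, rfl⟩ := hy
      obtain ⟨x', _, he⟩ := hy'
      exact hne (congrArg Prod.fst (Sum.inr_injective he)).symm
    · rw [disjoint_left]
      intro y hy hy'
      rw [mem_image] at hy
      rw [mem_biUnion] at hy'
      obtain ⟨b, _, rfl⟩ := hy
      obtain ⟨j, _, h⟩ := hy'
      rw [mem_image] at h
      obtain ⟨x, _, he⟩ := h
      exact Sum.inr_ne_inl he
  · intro j x y h
    rcases y with w | ⟨j', x'⟩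
    · have h' : own j = w ∧ x.val < 2 * q j := h
      exact Or.inr (by rw [h'.1])
    · have h' : j = j' := h.1
      subst h'
      exact Or.inl ⟨x', rfl⟩
  · rintro ⟨j, x⟩
    have h1 : nb (gr G d own q) (Sum.inr (j, x)) =
        (univ.filter (fun y : Fin (d + 1) => x ≠ y ∧
          ¬ (x.val < 2 * q j ∧ x.val / 2 = y.val / 2))).image (fun y => Sum.inr (j, y)) ∪
        (if x.val < 2 * q j then {Sum.inl (own j)} else ∅) := by
      ext y
      rw [mem_nb, mem_union, mem_image]
      rcases y with w | ⟨j', x'⟩
      · constructor
        · intro h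
          right
          have h' : own j = w ∧ x.val < 2 * q j := h
          rw [if_pos h'.2, h'.1]
          exact mem_singleton_self _
        · rintro (⟨y, _, he⟩ | h)
          · exact absurd he Sum.inr_ne_inl
          · split_ifs at h with h2
            · rw [mem_singleton] at h
              exact ⟨(Sum.inl_injective h).symm, h2⟩
            · exact absurd h (notMem_empty _)
      · constructor
        · intro h
          left
          have h' : j = j' ∧ x ≠ x' ∧ ¬ (x.val < 2 * q j ∧ x.val / 2 = x'.val / 2) := h
          obtain ⟨h2, h3, h4⟩ := h'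
          subst h2
          exact ⟨x', mem_filter.2 ⟨mem_univ _, h3, h4⟩, rfl⟩
        · rintro (⟨y, hy, he⟩ | h)
          · have h2 := Sum.inr_injective he
            have h3 : j = j' := congrArg Prod.fst h2
            have h4 : y = x' := congrArg Prod.snd h2
            subst h3
            subst h4
            have h5 := (mem_filter.1 hy).2
            exact ⟨rfl, h5.1, h5.2⟩
          · split_ifs at h with h2
            · rw [mem_singleton] at h
              exact absurd h Sum.inr_ne_inl
            · exact absurd h (notMem_empty _)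
    have hinj : Function.Injective (fun y : Fin (d + 1) =>
        (Sum.inr (j, y) : W ⊕ (J × Fin (d + 1)))) := by
      intro a b hab
      exact congrArg Prod.snd (Sum.inr_injective hab)
    rw [h1, card_union_of_disjoint, card_image_of_injective _ hinj]
    · by_cases hx : x.val < 2 * q j
      · rw [if_pos hx, card_singleton]
        have hqj := hq j
        obtain ⟨xb, hxb1, hxb2⟩ : ∃ xb : Fin (d + 1), xb ≠ x ∧
            ∀ y : Fin (d + 1), x.val / 2 = y.val / 2 ↔ (y = x ∨ y = xb) := by
          by_cases hev : x.val % 2 = 0
          · refine ⟨⟨x.val + 1, by omega⟩, ?_, ?_⟩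
            · intro h
              have := congrArg Fin.val h
              simp only at this
              omega
            · intro y
              rw [Fin.ext_iff, Fin.ext_iff]
              simp only
              omega
          · refine ⟨⟨x.val - 1, by omega⟩, ?_, ?_⟩
            · intro h
              have := congrArg Fin.val h
              simp only at this
              omega
            · intro y
              rw [Fin.ext_iff, Fin.ext_iff]
              simp only
              omega
        have h2 : (univ.filter (fun y : Fin (d + 1) => x ≠ y ∧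
            ¬ (x.val < 2 * q j ∧ x.val / 2 = y.val / 2))) = (univ.erase x).erase xb := by
          ext y
          rw [mem_filter, mem_erase, mem_erase]
          have h3 := hxb2 y
          constructor
          · rintro ⟨_, h4, h5⟩
            refine ⟨fun h => h5 ⟨hx, h3.2 (Or.inr h)⟩, h4.symm, mem_univ _⟩
          · rintro ⟨h4, h5, _⟩
            refine ⟨mem_univ _, fun h => h5 h.symm, fun h => ?_⟩
            rcases h3.1 h.2 with h6 | h6
            · exact h5 h6
            · exact h4 h6
        rw [h2, card_erase_of_mem (mem_erase.2 ⟨hxb1, mem_univ _⟩),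
          card_erase_of_mem (mem_univ _), card_univ, Fintype.card_fin]
        omega
      · rw [if_neg hx, card_empty]
        have h2 : (univ.filter (fun y : Fin (d + 1) => x ≠ y ∧
            ¬ (x.val < 2 * q j ∧ x.val / 2 = y.val / 2))) = univ.erase x := by
          ext y
          rw [mem_filter, mem_erase]
          constructor
          · rintro ⟨_, h4, _⟩
            exact ⟨h4.symm, mem_univ _⟩
          · rintro ⟨h4, _⟩
            exact ⟨mem_univ _, fun h => h4 h.symm, fun h => hx h.1⟩
        rw [h2, card_erase_of_mem (mem_univ _), card_univ, Fintype.card_fin]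
        omega
    · rw [disjoint_left]
      intro y hy hy'
      rw [mem_image] at hy
      obtain ⟨y', _, rfl⟩ := hy
      split_ifs at hy'
      · rw [mem_singleton] at hy'
        exact Sum.inr_ne_inl hy'
      · exact absurd hy' (notMem_empty _)
  · intro j
    rw [← hj j]
    congr 1
    ext x
    rw [mem_filter, mem_filter]
    constructor
    · rintro ⟨_, h⟩
      have h' : own j = own j ∧ x.val < 2 * q j := h
      exact ⟨mem_univ _, h'.2⟩
    · rintro ⟨_, h⟩
      exact ⟨mem_univ _, rfl, h⟩

end Pool.Agent.Work.MP_db9399_da.helper46
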