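import Pool.Agent.Work.MP_db9399_da.Local
import Pool.Agent.Work.MP_db9399_cr_helper46.CR

/-!
# MP_db9399, DENSE-ALL, block CRF (helper46)

The finish: LEMMA CR together with Mendelsohn-Dulmage.
-/

set_option autoImplicit false

namespace Pool.Agent.Work.MP_db9399_da.helper46

open Finset Classical
open Pool.Agent.Work.MP_db9399_all (nb)
open Pool.Agent.Work.MP_db9399_cr

universe u

/-- degree condition with an exceptional set: all vertices of degree at least `p` in a graph with
degrees at most `p` on the other side can be saturated -/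
theorem satp {E X Y : Type*} [DecidableEq E] [DecidableEq X] [DecidableEq Y] (x : E → X)
    (y : E → Y) (S : Finset E) (A : X → Prop) [DecidablePred A] (p : ℕ)
    (hA : ∀ v, A v → p ≤ dg x S v) (hy : ∀ w, dg y S w ≤ p)
    (hp : 1 ≤ p) : ∃ M ⊆ S, Mch x y M ∧ ∀ v, A v → ∃ e ∈ M, x e = v := by
  refine sat x y S A p hp hA fun w => le_trans (card_le_card ?_) (hy w)
  intro e he
  simp only [mem_filter] at he ⊢
  exact ⟨he.1, he.2.1⟩

theorem stmt_CRF : Stmt_CRF.{u} := by
  intro V _ R N0 sd Qi c T P hbip hTP hd2 hd1 hcT hcR hN0 hN0m hP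
  -- the edges
  set S : Finset (V × V) := univ.filter (fun e => R.Adj e.1 e.2 ∧ sd e.1 = false) with hS
  have memS : ∀ e : V × V, e ∈ S ↔ R.Adj e.1 e.2 ∧ sd e.1 = false := fun e => by
    rw [hS, mem_filter]; simp
  have sdS : ∀ e ∈ S, sd e.2 = true := fun e he => by
    have h := (memS e).1 he
    have := hbip _ _ h.1
    rw [h.2] at this
    cases hh : sd e.2
    · exact absurd hh.symm this
    · rfl
  have dgx : ∀ v, dg Prod.fst S v ≤ (nb R v).card := by
    intro v
    refine card_le_card_of_injOn Prod.snd ?_ ?_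
    · intro e he
      simp only [coe_filter, Set.mem_ofPred_eq] at he
      have h1 := ((memS e).1 he.1).1
      rw [he.2] at h1
      simp only [mem_coe, nb, mem_filter, mem_univ, true_and]
      exact h1
    · intro e he f hf hef
      simp only [coe_filter, Set.mem_ofPred_eq] at he hf
      exact Prod.ext (he.2.trans hf.2.symm) hef
  have dgy : ∀ v, dg Prod.snd S v ≤ (nb R v).card := by
    intro v
    refine card_le_card_of_injOn Prod.fst ?_ ?_
    · intro e he
      simp only [coe_filter, Set.mem_ofPred_eq] at he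
      have h1 := ((memS e).1 he.1).1
      rw [he.2] at h1
      simp only [mem_coe, nb, mem_filter, mem_univ, true_and]
      exact h1.symm
    · intro e he f hf hef
      simp only [coe_filter, Set.mem_ofPred_eq] at he hf
      exact Prod.ext hef (he.2.trans hf.2.symm)
  -- N0 as a set of edges
  have N0u : ∀ v w w', N0.Adj v w → N0.Adj v w' → w = w' := by
    intro v w w' h h'
    exact card_le_one.1 (hN0m v) w (by simp [nb, h]) w' (by simp [nb, h'])
  by_cases hr : Qi.card < 2
  · refine ⟨fun _ _ => 0, fun _ _ => rfl, fun v w h => ?_, fun v w hw => ?_⟩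
    · exfalso
      have h1 : 0 < (nb R v).card := card_pos.2 ⟨w, by simp [nb, h]⟩
      by_cases hv : v ∈ T ∪ P
      · have := hd1 v hv
        omega
      · rw [mem_union, not_or] at hv
        have := hd2 v hv.1 hv.2
        omega
    · exfalso
      have h1 : 0 < (nb R v).card := card_pos.2 ⟨w, hw⟩
      by_cases hv : v ∈ T ∪ P
      · have := hd1 v hv
        omega
      · rw [mem_union, not_or] at hv
        have := hd2 v hv.1 hv.2
        omega
  have hdeg : ∀ v, (nb R v).card ≤ Qi.card - 1 := by
    intro v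
    by_cases hv : v ∈ T ∪ P
    · have := hd1 v hv
      omega
    · rw [mem_union, not_or] at hv
      have := hd2 v hv.1 hv.2
      omega
  -- the last class
  set MA : Finset (V × V) := S.filter (fun e => N0.Adj e.1 e.2 ∧ e.1 ∈ P ∧ e.2 ∈ T) with hMA
  have mchN : ∀ M : Finset (V × V), (∀ e ∈ M, N0.Adj e.1 e.2) → Mch Prod.fst Prod.snd M := by
    intro M hM
    refine ⟨fun e he f hf h => Prod.ext h ?_, fun e he f hf h => Prod.ext ?_ h⟩
    · have h1 := hM e he
      have h2 := hM f hf
      rw [← h] at h2
      exact N0u _ _ _ h1 h2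
    · have h1 := hM e he
      have h2 := hM f hf
      rw [← h] at h2
      exact N0u _ _ _ h1.symm h2.symm
  obtain ⟨MT, hMTS, hMT, cMT⟩ := satp Prod.snd Prod.fst (S.filter (fun e => e.2 ∈ T))
    (fun w => Qi.card - 1 ≤ dg Prod.snd (S.filter (fun e => e.2 ∈ T)) w) (Qi.card - 1)
    (fun _ h => h) (fun v => (dg_mono Prod.fst (filter_subset _ _) v).trans
      ((dgx v).trans (hdeg v))) (by omega)
  obtain ⟨Nr, hNr, mr, crA, crT⟩ := md Prod.fst Prod.snd MA MT
    (mchN MA fun e he => (mem_filter.1 he).2.1) hMT.swap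
  have hNrS : Nr ⊆ S := by
    intro e he
    rcases mem_union.1 (hNr he) with h | h
    · exact (mem_filter.1 h).1
    · exact (mem_filter.1 (hMTS h)).1
  have ar : ∀ e ∈ Nr, e.2 ∈ T := by
    intro e he
    rcases mem_union.1 (hNr he) with h | h
    · exact (mem_filter.1 h).2.2.2
    · exact (mem_filter.1 (hMTS h)).2
  -- the first class
  set MB : Finset (V × V) := S.filter (fun e => N0.Adj e.1 e.2 ∧ e.1 ∈ T ∧ e.2 ∈ P) with hMB
  obtain ⟨MX, hMXS, hMX, cMX⟩ := satp Prod.fst Prod.snd ((S \ Nr).filter (fun e => e.1 ∈ T))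
    (fun w => Qi.card - 1 ≤ dg Prod.fst ((S \ Nr).filter (fun e => e.1 ∈ T)) w) (Qi.card - 1)
    (fun _ h => h) (fun v => (dg_mono Prod.snd ((filter_subset _ _).trans sdiff_subset) v).trans
      ((dgy v).trans (hdeg v))) (by omega)
  obtain ⟨N1, hN1, m1, c1X, c1B⟩ := md Prod.fst Prod.snd MX MB hMX
    (mchN MB fun e he => (mem_filter.1 he).2.1)
  have hMBr : ∀ e ∈ MB, e ∉ Nr := by
    intro e he h
    exact (disjoint_left.1 hTP) (ar e h) (mem_filter.1 he).2.2.2
  have hN1r : ∀ e ∈ N1, e ∈ S ∧ e ∉ Nr := by
    intro e he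
    rcases mem_union.1 (hN1 he) with h | h
    · exact mem_sdiff.1 (mem_filter.1 (hMXS h)).1
    · exact ⟨(mem_filter.1 h).1, hMBr e h⟩
  have a1 : ∀ e ∈ N1, e.1 ∈ T := by
    intro e he
    rcases mem_union.1 (hN1 he) with h | h
    · exact (mem_filter.1 (hMXS h)).2
    · exact (mem_filter.1 h).2.2.1
  have hN1S : N1 ⊆ S := fun e he => (hN1r e he).1
  have hdis : Disjoint N1 Nr := by
    rw [disjoint_left]
    exact fun e he => (hN1r e he).2
  have sub1 : S \ (N1 ∪ Nr) ⊆ S \ Nr := fun e he => by
    rw [mem_sdiff, mem_union, not_or] at he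
    exact mem_sdiff.2 ⟨he.1, he.2.2⟩
  have sub2 : S \ (N1 ∪ Nr) ⊆ (S \ Nr) \ N1 := fun e he => by
    rw [mem_sdiff, mem_union, not_or] at he
    exact mem_sdiff.2 ⟨mem_sdiff.2 ⟨he.1, he.2.2⟩, he.2.1⟩
  have sub3 : S \ (N1 ∪ Nr) ⊆ S \ N1 := fun e he => by
    rw [mem_sdiff, mem_union, not_or] at he
    exact mem_sdiff.2 ⟨he.1, he.2.1⟩
  obtain ⟨col, hc1, hc2⟩ := cr_galvin Prod.fst Prod.snd S Qi.card (by omega)
    (fun v => v ∉ T) (fun v => v ∉ T) N1 Nr hN1S hNrS hdis m1 mr
    (fun e he h => h (a1 e he)) (fun e he h => h (ar e he))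
    (by
      intro v
      by_cases hv : v ∈ T
      · by_cases hf : Qi.card - 1 ≤ dg Prod.fst ((S \ Nr).filter (fun e => e.1 ∈ T)) v
        · obtain ⟨e, he, hev⟩ := cMX v hf
          obtain ⟨f, hf', hfe⟩ := c1X e he
          have h1 := dg_sdiff_lt Prod.fst (v := v) (S := S \ Nr) (N := N1)
            (fun e he => mem_sdiff.2 (hN1r e he)) ⟨f, hf', hfe.trans hev⟩
          have h2 := dg_mono Prod.fst sub2 v
          have h3 := dg_mono Prod.fst (sdiff_subset : S \ Nr ⊆ S) v
          have h4 := dgx v
          have h5 := hdeg v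
          omega
        · have h2 : dg Prod.fst (S \ (N1 ∪ Nr)) v ≤
              dg Prod.fst ((S \ Nr).filter (fun e => e.1 ∈ T)) v := by
            refine card_le_card fun e he => ?_
            simp only [mem_filter] at he ⊢
            exact ⟨⟨sub1 he.1, by rw [he.2]; exact hv⟩, he.2⟩
          omega
      · by_cases hp : v ∈ P
        · by_cases hs : sd v = false
          · obtain ⟨w, hw, hvw⟩ := hP v hp
            have hmem : (v, w) ∈ MA := by
              rw [hMA, mem_filter, memS]
              exact ⟨⟨hN0 hvw, hs⟩, hvw, hp, hw⟩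
            obtain ⟨f, hf', hfe⟩ := crA _ hmem
            have h1 := dg_sdiff_lt Prod.fst (v := v) hNrS ⟨f, hf', hfe⟩
            have h2 := dg_mono Prod.fst sub1 v
            have h4 := dgx v
            have h5 := hdeg v
            omega
          · have h2 : dg Prod.fst (S \ (N1 ∪ Nr)) v = 0 := by
              unfold dg
              rw [card_eq_zero, filter_eq_empty_iff]
              intro e he h
              exact hs (h ▸ ((memS e).1 (mem_sdiff.1 he).1).2)
            omega
        · have h1 := hd2 v hv hp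
          have h2 := dg_mono Prod.fst (sdiff_subset : S \ (N1 ∪ Nr) ⊆ S) v
          have h4 := dgx v
          omega)
    (by
      intro v
      by_cases hv : v ∈ T
      · by_cases hf : Qi.card - 1 ≤ dg Prod.snd (S.filter (fun e => e.2 ∈ T)) v
        · obtain ⟨e, he, hev⟩ := cMT v hf
          obtain ⟨f, hf', hfe⟩ := crT e he
          have h1 := dg_sdiff_lt Prod.snd (v := v) hNrS ⟨f, hf', hfe.trans hev⟩
          have h2 := dg_mono Prod.snd sub1 v
          have h4 := dgy v
          have h5 := hdeg v
          omega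
        · have h2 : dg Prod.snd (S \ (N1 ∪ Nr)) v ≤
              dg Prod.snd (S.filter (fun e => e.2 ∈ T)) v := by
            refine card_le_card fun e he => ?_
            simp only [mem_filter] at he ⊢
            exact ⟨⟨(mem_sdiff.1 he.1).1, by rw [he.2]; exact hv⟩, he.2⟩
          omega
      · by_cases hp : v ∈ P
        · by_cases hs : sd v = false
          · have h2 : dg Prod.snd (S \ (N1 ∪ Nr)) v = 0 := by
              unfold dg
              rw [card_eq_zero, filter_eq_empty_iff]
              intro e he h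
              have := sdS e (mem_sdiff.1 he).1
              rw [h, hs] at this
              exact absurd this (by simp)
            omega
          · obtain ⟨w, hw, hvw⟩ := hP v hp
            have hsw : sd w = false := by
              have := hbip v w (hN0 hvw)
              cases h : sd w
              · rfl
              · rw [h] at this
                exact absurd (by simpa using hs) this
            have hmem : (w, v) ∈ MB := by
              rw [hMB, mem_filter, memS]
              exact ⟨⟨(hN0 hvw).symm, hsw⟩, hvw.symm, hw, hp⟩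
            obtain ⟨f, hf', hfe⟩ := c1B _ hmem
            have h1 := dg_sdiff_lt Prod.snd (v := v) hN1S ⟨f, hf', hfe⟩
            have h2 := dg_mono Prod.snd sub3 v
            have h4 := dgy v
            have h5 := hdeg v
            omega
        · have h1 := hd2 v hv hp
          have h2 := dg_mono Prod.snd (sdiff_subset : S \ (N1 ∪ Nr) ⊆ S) v
          have h4 := dgy v
          omega)
    Qi le_rfl c c
  -- the colouring
  have own : ∀ v k, k ∈ Qi → (v ∉ T → k ≠ c v) → k ≠ c v := by
    intro v k hk h
    by_cases hv : v ∈ T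
    · intro h'
      exact hcT v hv (h' ▸ hk)
    · exact h hv
  set t : V → V → ℕ := fun v w => if sd v = false ∧ sd w = true then col (v, w) else
    if sd w = false ∧ sd v = true then col (w, v) else 0 with ht
  have t1 : ∀ v w, sd v = false → sd w = true → t v w = col (v, w) := by
    intro v w h1 h2
    simp only [ht, h1, h2, and_self, if_true]
  have t2 : ∀ v w, sd v = true → sd w = false → t v w = col (w, v) := by
    intro v w h1 h2
    simp only [ht, h1, h2]
    simp
  have hcase : ∀ v w, R.Adj v w → (sd v = false ∧ sd w = true) ∨ (sd v = true ∧ sd w = false) := by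
    intro v w h
    have := hbip v w h
    cases h1 : sd v <;> cases h2 : sd w <;> simp_all
  refine ⟨t, ?_, ?_, ?_⟩
  · intro v w
    simp only [ht]
    cases h1 : sd v <;> cases h2 : sd w <;> simp
  · intro v w h
    rcases hcase v w h with ⟨h1, h2⟩ | ⟨h1, h2⟩
    · rw [t1 v w h1 h2]
      obtain ⟨k1, k2, k3⟩ := hc1 (v, w) ((memS _).2 ⟨h, h1⟩)
      exact ⟨k1, own v _ k1 k2⟩
    · rw [t2 v w h1 h2]
      obtain ⟨k1, k2, k3⟩ := hc1 (w, v) ((memS _).2 ⟨h.symm, h2⟩)
      exact ⟨k1, own v _ k1 k3⟩
  · intro v w hw w' hw' hww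
    simp only [nb, coe_filter, mem_univ, true_and, Set.mem_ofPred_eq] at hw hw'
    by_contra hne
    rcases hcase v w hw with ⟨h1, h2⟩ | ⟨h1, h2⟩
    · have h3 : sd w' = true := by
        rcases hcase v w' hw' with h | h
        · exact h.2
        · rw [h1] at h
          exact absurd h.1 (by simp)
      rw [t1 v w h1 h2, t1 v w' h1 h3] at hww
      exact hc2 (v, w) ((memS _).2 ⟨hw, h1⟩) (v, w') ((memS _).2 ⟨hw', h1⟩)
        (fun h => hne (congrArg Prod.snd h)) (Or.inl rfl) hww
    · have h3 : sd w' = false := by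
        rcases hcase v w' hw' with h | h
        · rw [h1] at h
          exact absurd h.1 (by simp)
        · exact h.2
      rw [t2 v w h1 h2, t2 v w' h1 h3] at hww
      exact hc2 (w, v) ((memS _).2 ⟨hw.symm, h2⟩) (w', v) ((memS _).2 ⟨hw'.symm, h3⟩)
        (fun h => hne (congrArg Prod.fst h)) (Or.inr rfl) hww

end Pool.Agent.Work.MP_db9399_da.helper46
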