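import Pool.Agent.Work.MP_db9399_da_helper72.Stm5

/-!
# MP_db9399, DENSE-ALL, block LOCN: the missed vertices (helper46)
-/

set_option autoImplicit false

namespace Pool.Agent.Work.MP_db9399_da.helper46

open Finset Classical
open Pool.Agent.Work.MP_db9399_da_helper72
open Pool.Agent.Work.MP_db9399_lt (us)
open Pool.Agent.Work.MP_db9399_da (sgp qtr)

universe u

/-- greedy injective choice, classes are treated separately -/
theorem sdrq {ι V κ : Type*} [DecidableEq κ] [Nonempty V] (q : ι → κ) (cl : V → κ) (A : ι → Finset V)
    (hA : ∀ j, ∀ v ∈ A j, cl v = q j) (J : Finset ι)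
    (h : ∀ j ∈ J, (J.filter fun k => q k = q j).card ≤ (A j).card) :
    ∃ f : ι → V, (∀ j ∈ J, f j ∈ A j) ∧ ∀ j ∈ J, ∀ k ∈ J, f j = f k → j = k := by
  induction J using Finset.induction_on with
  | empty => exact ⟨fun _ => Classical.arbitrary V, by simp, by simp⟩
  | insert a J ha ih =>
    obtain ⟨f, hf1, hf2⟩ := ih (fun j hj => by
      refine le_trans (card_le_card ?_) (h j (mem_insert_of_mem hj))
      exact filter_subset_filter _ (subset_insert _ _))
    have h1 : ((J.filter fun k => q k = q a).image f).card < (A a).card := by
      have h2 := h a (mem_insert_self _ _)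
      rw [filter_insert, if_pos rfl, card_insert_of_notMem (by
        rw [mem_filter]; exact fun hh => ha hh.1)] at h2
      have h3 : ((J.filter fun k => q k = q a).image f).card ≤
        (J.filter fun k => q k = q a).card := card_image_le
      omega
    obtain ⟨x, hx, hx'⟩ := exists_mem_notMem_of_card_lt_card h1
    have hne : ∀ j ∈ J, f j ≠ x := by
      intro j hj he
      by_cases hq : q j = q a
      · exact hx' (mem_image.2 ⟨j, mem_filter.2 ⟨hj, hq⟩, he⟩)
      · apply hq
        rw [← hA j _ (hf1 j hj), he, hA a x hx]
    have hna : ∀ j ∈ J, j ≠ a := fun j hj he => ha (he ▸ hj)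
    refine ⟨fun j => if j = a then x else f j, ?_, ?_⟩
    · intro j hj
      by_cases hja : j = a
      · simp only [if_pos hja]
        rw [hja]
        exact hx
      · simp only [if_neg hja]
        exact hf1 j ((mem_insert.1 hj).resolve_left hja)
    · intro j hj k hk he
      by_cases hja : j = a
      · by_cases hka : k = a
        · rw [hja, hka]
        · simp only [if_pos hja, if_neg hka] at he
          exact absurd he.symm (hne k ((mem_insert.1 hk).resolve_left hka))
      · by_cases hka : k = a
        · simp only [if_pos hka, if_neg hja] at he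
          exact absurd he (hne j ((mem_insert.1 hj).resolve_left hja))
        · simp only [if_neg hja, if_neg hka] at he
          exact hf2 j ((mem_insert.1 hj).resolve_left hja) k
            ((mem_insert.1 hk).resolve_left hka) he

theorem half (O : Finset ℕ) : ∃ h : ℕ → Bool, ∀ β,
    2 * (O.filter fun b => h b = β).card ≤ O.card + 1 := by
  obtain ⟨O', hO', hc⟩ := exists_subset_card_eq (Nat.div_le_self O.card 2)
  refine ⟨fun b => decide (b ∈ O'), ?_⟩
  have h1 : (O.filter fun b => decide (b ∈ O') = true) = O' := by
    ext b
    simp only [mem_filter, decide_eq_true_eq]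
    exact ⟨fun h => h.2, fun h => ⟨hO' h, h⟩⟩
  have h2 : (O.filter fun b => decide (b ∈ O') = false) = O \ O' := by
    ext b
    simp only [mem_filter, decide_eq_false_iff_not, mem_sdiff]
  intro β
  cases β
  · rw [h2, card_sdiff_of_subset hO', hc]
    omega
  · rw [h1, hc]
    omega

/-- quarters for the odd colours -/
theorem quar (O : Finset ℕ) : ∃ q : ℕ → Bool × Bool,
    (∀ c, 4 * (O.filter fun b => q b = c).card ≤ O.card + 3) ∧
    ∀ i, |((O.filter fun b => q b = (false, i)).card : ℤ) -
      ((O.filter fun b => q b = (true, i)).card : ℤ)| ≤ 1 := by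
  obtain ⟨h1, hh1⟩ := half O
  choose g hg using fun i => half (O.filter fun b => h1 b = i)
  refine ⟨fun b => (g (h1 b) b, h1 b), ?_⟩
  have e1 : ∀ β i, (O.filter fun b => (g (h1 b) b, h1 b) = (β, i)) =
      ((O.filter fun b => h1 b = i).filter fun b => g i b = β) := by
    intro β i
    ext b
    simp only [mem_filter, Prod.mk.injEq]
    constructor
    · rintro ⟨a1, a2, a3⟩
      exact ⟨⟨a1, a3⟩, by rw [← a3]; exact a2⟩
    · rintro ⟨⟨a1, a2⟩, a3⟩
      exact ⟨a1, by rw [a2]; exact a3, a2⟩
  constructor
  · rintro ⟨β, i⟩
    rw [e1]
    have := hg i β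
    have := hh1 i
    omega
  · intro i
    rw [e1, e1]
    have h2 := hg i false
    have h3 := hg i true
    have h4 : (O.filter fun b => h1 b = i).card =
        ((O.filter fun b => h1 b = i).filter fun b => g i b = false).card +
        ((O.filter fun b => h1 b = i).filter fun b => g i b = true).card := by
      rw [← card_filter_add_card_filter_not (fun b => g i b = false)]
      congr 2
      ext b
      simp
    rw [abs_le]
    omega

end Pool.Agent.Work.MP_db9399_da.helper46
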