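import Pool.Agent.Work.MP_db9399_da_helper46.LNA

/-!
# MP_db9399, DENSE-ALL, block LOCN: the missed vertices, continued (helper46)
-/

set_option autoImplicit false

namespace Pool.Agent.Work.MP_db9399_da.helper46

open Finset Classical
open Pool.Agent.Work.MP_db9399_da_helper72
open Pool.Agent.Work.MP_db9399_lt (us)
open Pool.Agent.Work.MP_db9399_da (sgp qtr)

universe u

variable {V : Type u} [Fintype V]

theorem mem_qt {sd pt : V → Bool} {β i : Bool} {v : V} :
    v ∈ qt sd pt β i ↔ sd v = β ∧ pt v = i := by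
  unfold qt
  rw [mem_filter]
  simp

theorem mem_us {F : V → Finset ℕ} {b : ℕ} {v : V} : v ∈ us F b ↔ b ∈ F v := by
  unfold us
  rw [mem_filter]
  simp

/-- missed vertices of the rounds of `P` -/
theorem miss1 [Nonempty V] (sd pt : V → Bool) (P : Finset ℕ) (F : V → Finset ℕ)
    (hsz : ∀ β i, ∀ b ∈ P, P.card + 3 ≤ 4 * (qt sd pt β i \ us F b).card) :
    ∃ W : ℕ → Finset V, (∀ b, ∀ v ∈ W b, b ∈ P ∧ b ∉ F v) ∧ (∀ b, (W b).card ≤ 1) ∧
      (∀ b ∈ P, Even ((univ.filter fun v => b ∈ F v ∨ v ∈ W b)ᶜ).card) ∧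
      (∀ v, (P.filter fun b => v ∈ W b).card ≤ 1) ∧
      (∀ i, |∑ v ∈ univ.filter (fun v => pt v = i),
        sgv (sd v) * ((P.filter fun b => v ∈ W b).card : ℤ)| ≤ 1) ∧
      ∀ β i, 4 * (qt sd pt β i ∩ P.biUnion W).card ≤ P.card + 3 := by
  set O : Finset ℕ := P.filter fun b => Odd ((univ.filter fun v => b ∈ F v)ᶜ).card with hO
  obtain ⟨q, hq1, hq2⟩ := quar O
  have hOP : O ⊆ P := filter_subset _ _
  have hOc : O.card ≤ P.card := card_le_card hOP
  obtain ⟨f, hf1, hf2⟩ := sdrq q (fun v => (sd v, pt v))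
    (fun b => qt sd pt (q b).1 (q b).2 \ us F b)
    (by
      intro j v hv
      rw [mem_sdiff, mem_qt] at hv
      exact Prod.ext hv.1.1 hv.1.2) O
    (by
      intro j hj
      have h1 := hq1 (q j)
      have h2 := hsz (q j).1 (q j).2 j (hOP hj)
      omega)
  have hf3 : ∀ b ∈ O, sd (f b) = (q b).1 ∧ pt (f b) = (q b).2 ∧ b ∉ F (f b) := by
    intro b hb
    have := hf1 b hb
    rw [mem_sdiff, mem_qt, mem_us] at this
    exact ⟨this.1.1, this.1.2, this.2⟩
  set W : ℕ → Finset V := fun b => if b ∈ O then {f b} else ∅ with hW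
  have hWm : ∀ b v, v ∈ W b ↔ b ∈ O ∧ v = f b := by
    intro b v
    simp only [hW]
    split_ifs with h
    · simp [h]
    · simp [h]
  refine ⟨W, ?_, ?_, ?_, ?_, ?_, ?_⟩
  · intro b v hv
    obtain ⟨h1, rfl⟩ := (hWm b v).1 hv
    exact ⟨hOP h1, (hf3 b h1).2.2⟩
  · intro b
    simp only [hW]
    split_ifs <;> simp
  · intro b hb
    by_cases h : b ∈ O
    · have h1 : (univ.filter fun v => b ∈ F v ∨ v ∈ W b)ᶜ =
          ((univ.filter fun v => b ∈ F v)ᶜ).erase (f b) := by
        ext v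
        simp only [mem_compl, mem_filter, mem_univ, true_and, not_or, mem_erase, hWm, h]
        tauto
      have h2 : Odd ((univ.filter fun v => b ∈ F v)ᶜ).card := (mem_filter.1 h).2
      have h3 : f b ∈ (univ.filter fun v => b ∈ F v)ᶜ := by
        simp only [mem_compl, mem_filter, mem_univ, true_and]
        exact (hf3 b h).2.2
      rw [h1, card_erase_of_mem h3]
      obtain ⟨k, hk⟩ := h2
      exact ⟨k, by omega⟩
    · have h1 : (univ.filter fun v => b ∈ F v ∨ v ∈ W b)ᶜ = (univ.filter fun v => b ∈ F v)ᶜ := by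
        ext v
        simp only [mem_compl, mem_filter, mem_univ, true_and, not_or, hWm, h]
        tauto
      rw [h1]
      rw [hO, mem_filter, not_and] at h
      exact Nat.not_odd_iff_even.1 (h hb)
  · intro v
    rw [card_le_one]
    intro b hb b' hb'
    simp only [mem_filter, hWm] at hb hb'
    exact hf2 b hb.2.1 b' hb'.2.1 (hb.2.2.symm.trans hb'.2.2)
  · intro i
    have h1 : ∀ v, ((P.filter fun b => v ∈ W b).card : ℤ) = ∑ b ∈ O, if v = f b then 1 else 0 := by
      intro v
      have : (P.filter fun b => v ∈ W b) = O.filter fun b => v = f b := by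
        ext b
        simp only [mem_filter, hWm]
        exact ⟨fun h => h.2, fun h => ⟨hOP h.1, h⟩⟩
      rw [this, card_filter]
      push_cast
      rfl
    have h2 : ∑ v ∈ univ.filter (fun v => pt v = i),
        sgv (sd v) * ((P.filter fun b => v ∈ W b).card : ℤ) =
        ((O.filter fun b => q b = (false, i)).card : ℤ) -
          ((O.filter fun b => q b = (true, i)).card : ℤ) := by
      simp only [h1, mul_sum]
      rw [sum_comm, card_filter, card_filter]
      push_cast
      rw [← sum_sub_distrib]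
      refine sum_congr rfl fun b hb => ?_
      have h3 := hf3 b hb
      have h4 : ∀ v ∈ univ.filter (fun v => pt v = i), sgv (sd v) * (if v = f b then 1 else 0 : ℤ)
          = if v = f b then sgv (sd (f b)) else 0 := by
        intro v _
        split_ifs with h
        · rw [h, mul_one]
        · rw [mul_zero]
      rw [sum_congr rfl h4, sum_ite_eq']
      have h5 : f b ∈ univ.filter (fun v => pt v = i) ↔ (q b).2 = i := by
        rw [mem_filter, ← h3.2.1]
        simp
      rw [h3.1]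
      unfold sgv
      rcases hqb : q b with ⟨β, j⟩
      simp only [h5, hqb, Prod.mk.injEq]
      by_cases hj : j = i
      · cases β <;> simp [hj]
      · simp [hj]
    rw [h2]
    exact hq2 i
  · intro β i
    have h1 : (qt sd pt β i ∩ P.biUnion W).card ≤ (O.filter fun b => q b = (β, i)).card := by
      refine le_trans (card_le_card ?_) (card_image_le (f := f))
      intro v hv
      rw [mem_inter, mem_biUnion, mem_qt] at hv
      obtain ⟨h1, b, hb, hvb⟩ := hv
      obtain ⟨h2, h3⟩ := (hWm b v).1 hvb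
      rw [mem_image]
      refine ⟨b, mem_filter.2 ⟨h2, ?_⟩, h3.symm⟩
      have h4 := hf3 b h2
      rw [← h3, h1.1, h1.2] at h4
      exact Prod.ext h4.1.symm h4.2.1.symm
    have h2 := hq1 (β, i)
    omega

/-- missed vertices of the rounds of stage B -/
theorem missK [Nonempty V] (K : ℕ) (sd pt : V → Bool) (Pi : Bool → Finset ℕ)
    (F2 : V → Finset ℕ) (M1 : Finset V) (hq : ∀ i, ∀ b ∈ Pi i, |qq F2 sd pt i b| ≤ K)
    (hsz : ∀ β i, ∀ b ∈ Pi i,
      K * (Pi i).card ≤ (qt sd pt β i \ (us F2 b ∪ M1)).card) :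
    ∃ W2 : ℕ → Finset V, (∀ b, ∀ v ∈ W2 b, b ∈ Pi (pt v) ∧ b ∉ F2 v ∧ v ∉ M1) ∧
      (∀ b, (W2 b).card ≤ 2 * K) ∧ (∀ v, ((Pi (pt v)).filter fun b => v ∈ W2 b).card ≤ 1) ∧
      ∀ i, ∀ b ∈ Pi i, ((qt sd pt false i \ us F2 b) \ W2 b).card =
        ((qt sd pt true i \ us F2 b) \ W2 b).card := by
  set qf : Bool × ℕ × ℕ → Bool × Bool :=
    fun j => (decide (qq F2 sd pt j.1 j.2.1 < 0), j.1) with hqf
  set J : Finset (Bool × ℕ × ℕ) :=
    ((univ : Finset Bool) ×ˢ ((Pi false ∪ Pi true) ×ˢ range K)).filter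
      (fun j => j.2.1 ∈ Pi j.1 ∧ j.2.2 < (qq F2 sd pt j.1 j.2.1).natAbs) with hJ
  have hJm : ∀ i b k, (i, b, k) ∈ J ↔ b ∈ Pi i ∧ k < (qq F2 sd pt i b).natAbs := by
    intro i b k
    rw [hJ, mem_filter, mem_product, mem_product, mem_union, mem_range]
    simp only [mem_univ, true_and]
    constructor
    · rintro ⟨_, h⟩
      exact h
    · intro h
      refine ⟨⟨?_, ?_⟩, h⟩
      · cases i
        · exact Or.inl h.1
        · exact Or.inr h.1
      · have h1 := hq i b h.1
        rw [abs_le] at h1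
        omega
  obtain ⟨f, hf1, hf2⟩ := sdrq qf (fun v => (sd v, pt v))
    (fun j => qt sd pt (qf j).1 (qf j).2 \ (us F2 j.2.1 ∪ M1))
    (by
      intro j v hv
      rw [mem_sdiff, mem_qt] at hv
      exact Prod.ext hv.1.1 hv.1.2) J
    (by
      rintro ⟨i, b, k⟩ hj
      rw [hJm] at hj
      refine le_trans ?_ (hsz _ _ b hj.1)
      have h1 : (J.filter fun k' => qf k' = qf (i, b, k)) ⊆
          ({i} : Finset Bool) ×ˢ ((Pi i) ×ˢ range K) := by
        rintro ⟨i', b', k'⟩ h
        rw [mem_filter, hJm] at h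
        have h2 : i' = i := (Prod.ext_iff.1 h.2).2
        subst h2
        rw [mem_product, mem_product, mem_singleton, mem_range]
        refine ⟨rfl, h.1.1, ?_⟩
        have h3 := hq _ _ h.1.1
        rw [abs_le] at h3
        have h4 := h.1.2
        show k' < K
        omega
      refine (card_le_card h1).trans ?_
      rw [card_product, card_product, card_singleton, card_range]
      show 1 * ((Pi i).card * K) ≤ K * (Pi i).card
      rw [one_mul, mul_comm])
  have hf3 : ∀ i b k, (i, b, k) ∈ J → sd (f (i, b, k)) = decide (qq F2 sd pt i b < 0) ∧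
      pt (f (i, b, k)) = i ∧ b ∉ F2 (f (i, b, k)) ∧ f (i, b, k) ∉ M1 := by
    intro i b k hj
    have := hf1 _ hj
    rw [mem_sdiff, mem_qt, mem_union, mem_us, not_or] at this
    exact ⟨this.1.1, this.1.2, this.2.1, this.2.2⟩
  set W2 : ℕ → Finset V := fun b => (J.filter fun j => j.2.1 = b).image f with hW2
  have hWm : ∀ b v, v ∈ W2 b ↔ ∃ i k, (i, b, k) ∈ J ∧ f (i, b, k) = v := by
    intro b v
    simp only [hW2, mem_image, mem_filter]
    constructor
    · rintro ⟨⟨i, b', k⟩, ⟨h1, h2⟩, h3⟩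
      have h4 : b' = b := h2
      subst h4
      exact ⟨i, k, h1, h3⟩
    · rintro ⟨i, k, h1, h2⟩
      exact ⟨(i, b, k), ⟨h1, rfl⟩, h2⟩
  refine ⟨W2, ?_, ?_, ?_, ?_⟩
  · intro b v hv
    obtain ⟨i, k, h1, rfl⟩ := (hWm b v).1 hv
    have h2 := hf3 i b k h1
    exact ⟨by rw [h2.2.1]; exact ((hJm i b k).1 h1).1, h2.2.2.1, h2.2.2.2⟩
  · intro b
    refine card_image_le.trans ?_
    have h1 : (J.filter fun j => j.2.1 = b) ⊆
        (univ : Finset Bool) ×ˢ (({b} : Finset ℕ) ×ˢ range K) := by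
      rintro ⟨i', b', k'⟩ h
      rw [mem_filter] at h
      have h2 : b' = b := h.2
      have h3 := (mem_filter.1 h.1).1
      rw [mem_product, mem_product] at h3 ⊢
      exact ⟨mem_univ _, mem_singleton.2 h2, h3.2.2⟩
    refine (card_le_card h1).trans ?_
    rw [card_product, card_product, card_singleton, card_range, card_univ, Fintype.card_bool,
      one_mul]
  · intro v
    rw [card_le_one]
    intro b hb b' hb'
    rw [mem_filter, hWm] at hb hb'
    obtain ⟨_, i, k, h1, h2⟩ := hb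
    obtain ⟨_, i', k', h1', h2'⟩ := hb'
    have := hf2 _ h1 _ h1' (h2.trans h2'.symm)
    exact congrArg (fun j : Bool × ℕ × ℕ => j.2.1) this
  · intro i b hb
    have key : ∀ β, ((qt sd pt β i \ us F2 b) ∩ W2 b).card =
        if β = decide (qq F2 sd pt i b < 0) then (qq F2 sd pt i b).natAbs else 0 := by
      intro β
      split_ifs with hβ
      · have h1 : (qt sd pt β i \ us F2 b) ∩ W2 b =
            (range (qq F2 sd pt i b).natAbs).image (fun k => f (i, b, k)) := by
          ext v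
          rw [mem_inter, mem_sdiff, mem_qt, mem_us, hWm, mem_image]
          constructor
          · rintro ⟨⟨⟨_, h2⟩, _⟩, i', k, h4, h5⟩
            have h6 := (hf3 _ _ _ h4).2.1
            rw [h5, h2] at h6
            subst h6
            exact ⟨k, mem_range.2 ((hJm _ _ _).1 h4).2, h5⟩
          · rintro ⟨k, hk, rfl⟩
            have h4 : (i, b, k) ∈ J := (hJm _ _ _).2 ⟨hb, mem_range.1 hk⟩
            have h6 := hf3 _ _ _ h4
            exact ⟨⟨⟨h6.1.trans hβ.symm, h6.2.1⟩, h6.2.2.1⟩, i, k, h4, rfl⟩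
        rw [h1, card_image_of_injOn, card_range]
        intro k hk k' hk' he
        rw [mem_coe, mem_range] at hk hk'
        have := hf2 (i, b, k) ((hJm _ _ _).2 ⟨hb, hk⟩) (i, b, k') ((hJm _ _ _).2 ⟨hb, hk'⟩) he
        exact congrArg (fun j : Bool × ℕ × ℕ => j.2.2) this
      · rw [card_eq_zero, eq_empty_iff_forall_notMem]
        intro v hv
        rw [mem_inter, mem_sdiff, mem_qt, hWm] at hv
        obtain ⟨⟨⟨h1, h2⟩, _⟩, i', k, h4, h5⟩ := hv
        have h6 := hf3 _ _ _ h4
        rw [h5] at h6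
        have h7 : i = i' := h2.symm.trans h6.2.1
        subst h7
        exact hβ (h1.symm.trans h6.1)
    have h1 : ∀ β, ((qt sd pt β i \ us F2 b) \ W2 b).card +
        ((qt sd pt β i \ us F2 b) ∩ W2 b).card = (qt sd pt β i \ us F2 b).card :=
      fun β => card_sdiff_add_card_inter _ _
    have h2 := h1 false
    have h3 := h1 true
    rw [key] at h2 h3
    have h4 : qq F2 sd pt i b = ((qt sd pt false i \ us F2 b).card : ℤ) -
      ((qt sd pt true i \ us F2 b).card : ℤ) := rfl
    by_cases hn : qq F2 sd pt i b < 0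
    · rw [decide_eq_true hn] at h2 h3
      rw [if_neg (by simp)] at h2
      rw [if_pos rfl] at h3
      omega
    · rw [decide_eq_false hn] at h2 h3
      rw [if_neg (by simp)] at h3
      rw [if_pos rfl] at h2
      omega

theorem miss2 [Nonempty V] (sd pt : V → Bool) (Pi : Bool → Finset ℕ) (F2 : V → Finset ℕ)
    (M1 : Finset V) (hq : ∀ i, ∀ b ∈ Pi i, |qq F2 sd pt i b| ≤ 10)
    (hsz : ∀ β i, ∀ b ∈ Pi i,
      10 * (Pi i).card ≤ (qt sd pt β i \ (us F2 b ∪ M1)).card) :
    ∃ W2 : ℕ → Finset V, (∀ b, ∀ v ∈ W2 b, b ∈ Pi (pt v) ∧ b ∉ F2 v ∧ v ∉ M1) ∧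
      (∀ b, (W2 b).card ≤ 20) ∧ (∀ v, ((Pi (pt v)).filter fun b => v ∈ W2 b).card ≤ 1) ∧
      ∀ i, ∀ b ∈ Pi i, ((qt sd pt false i \ us F2 b) \ W2 b).card =
        ((qt sd pt true i \ us F2 b) \ W2 b).card :=
  missK 10 sd pt Pi F2 M1 hq hsz

end Pool.Agent.Work.MP_db9399_da.helper46
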