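import Pool.Agent.Work.MP_db9399_da_helper46.LNB
import Pool.Agent.Work.MP_db9399_co.Konig

/-!
# MP_db9399, DENSE-ALL, block LOCN: translations and the finish (helper46)
-/

set_option autoImplicit false

namespace Pool.Agent.Work.MP_db9399_da.helper46

open Finset Classical
open Pool.Agent.Work.MP_db9399_all (nb)
open Pool.Agent.Work.MP_db9399_da_helper72
open Pool.Agent.Work.MP_db9399_lt (us)
open Pool.Agent.Work.MP_db9399_da (sgp qtr prt)

universe u

variable {V : Type u} [Fintype V]

theorem mem_nb {G : SimpleGraph V} {v w : V} : w ∈ nb G v ↔ G.Adj v w := by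
  unfold nb
  rw [mem_filter]
  simp

theorem nb_dg (G : SimpleGraph V) (v : V) : (nb G v).card = dg G v univ := by
  unfold dg
  congr 1

theorem dg_inter (G : SimpleGraph V) (v : V) (Z : Finset V) : dg G v Z = (nb G v ∩ Z).card := by
  unfold dg
  congr 1
  ext w
  rw [mem_filter, mem_inter, mem_nb]
  exact and_comm

theorem ee_sum (G : SimpleGraph V) (A B : Finset V) : ee G A B = ∑ v ∈ A, dg G v B := by
  unfold ee
  rw [card_filter, sum_product]
  refine sum_congr rfl fun v _ => ?_
  unfold dg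
  rw [card_filter]

theorem cut_ee (G : SimpleGraph V) (S : Finset V) :
    (ee G S Sᶜ : ℝ) = ∑ v ∈ S, ((nb G v \ S).card : ℝ) := by
  rw [ee_sum]
  push_cast
  refine sum_congr rfl fun v _ => ?_
  rw [dg_inter]
  congr 2
  ext w
  rw [mem_inter, mem_sdiff, mem_compl]

theorem nbi_ee (G : SimpleGraph V) (S : Finset V) :
    (ee G S S : ℝ) = ∑ v ∈ S, ((nb G v ∩ S).card : ℝ) := by
  rw [ee_sum]
  push_cast
  refine sum_congr rfl fun v _ => ?_
  rw [dg_inter]

theorem nbi_ee' (G : SimpleGraph V) (S : Finset V) :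
    (ee G Sᶜ Sᶜ : ℝ) = ∑ v ∈ univ \ S, ((nb G v \ S).card : ℝ) := by
  rw [nbi_ee, compl_eq_univ_sdiff]
  refine sum_congr rfl fun v _ => ?_
  congr 2
  ext w
  rw [mem_inter, mem_sdiff, mem_sdiff]
  simp

theorem dg_crs (G : SimpleGraph V) (sd pt : V → Bool) (v : V) :
    dg (crs G sd pt) v univ = (nb G v ∩ qtr sd pt (!(sd v)) (pt v)).card := by
  rw [← nb_dg]
  congr 1
  ext w
  rw [mem_nb, mem_inter, mem_nb]
  unfold qtr crs
  simp only [mem_filter, mem_univ, true_and]
  constructor
  · rintro ⟨h1, h2, h3⟩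
    refine ⟨h1, ?_, h3.symm⟩
    cases h4 : sd v <;> cases h5 : sd w <;> simp_all
  · rintro ⟨h1, h2, h3⟩
    refine ⟨h1, ?_, h3.symm⟩
    rw [h2]
    cases sd v <;> simp

theorem cut_crs (G : SimpleGraph V) (sd pt : V → Bool) (i : Bool) (S : Finset V)
    (hS : S ⊆ prt pt i) : (ee (crs G sd pt) S (pr pt i \ S) : ℝ) =
      ∑ v ∈ S, (((nb G v \ S) ∩ qtr sd pt (!(sd v)) i).card : ℝ) := by
  rw [ee_sum]
  push_cast
  refine sum_congr rfl fun v hv => ?_
  have hvi : pt v = i := by
    have := hS hv
    unfold prt at this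
    rw [mem_filter] at this
    exact this.2
  rw [dg_inter]
  congr 2
  ext w
  rw [mem_inter, mem_inter, mem_sdiff, mem_sdiff, mem_nb, mem_nb]
  unfold qtr crs pr
  simp only [mem_filter, mem_univ, true_and]
  constructor
  · rintro ⟨⟨h1, h2, h3⟩, h4, h5⟩
    refine ⟨⟨h1, h5⟩, ?_, h4⟩
    cases h6 : sd v <;> cases h7 : sd w <;> simp_all
  · rintro ⟨⟨h1, h5⟩, h2, h4⟩
    refine ⟨⟨h1, ?_, hvi.trans h4.symm⟩, h4, h5⟩
    rw [h2]
    cases sd v <;> simp

/-- the last palettes: Koenig's theorem in both parts -/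
theorem finish (R : SimpleGraph V) (sd pt : V → Bool) (Q : Bool → Finset ℕ)
    (hR : ∀ v w, R.Adj v w → sd v ≠ sd w ∧ pt v = pt w)
    (hd : ∀ v, dg R v univ ≤ (Q (pt v)).card) :
    ∃ t : V → V → ℕ, (∀ v w, t v w = t w v) ∧ (∀ v w, R.Adj v w → t v w ∈ Q (pt v)) ∧
      ∀ v w w', R.Adj v w → R.Adj v w' → t v w = t v w' → w = w' := by
  have hk : ∀ i : Bool, ∃ col : V × V → ℕ,
      (∀ v w, R.Adj v w → sd v = false → pt v = i → col (v, w) ∈ Q i) ∧
      (∀ v w w', R.Adj v w → R.Adj v w' → sd v = false → pt v = i → col (v, w) = col (v, w') →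
        w = w') ∧
      ∀ v w w', R.Adj w v → R.Adj w' v → sd v = true → pt v = i → col (w, v) = col (w', v) →
        w = w' := by
    intro i
    set S : Finset (V × V) :=
      univ.filter (fun e => R.Adj e.1 e.2 ∧ sd e.1 = false ∧ pt e.1 = i) with hS
    have memS : ∀ e : V × V, e ∈ S ↔ R.Adj e.1 e.2 ∧ sd e.1 = false ∧ pt e.1 = i := fun e => by
      rw [hS, mem_filter]; simp
    obtain ⟨κ, hκ1, hκ2⟩ := MP_db9399_co.konig (Prod.fst : V × V → V) (Prod.snd : V × V → V)
      (Q i).card S
      (by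
        intro v
        by_cases hv : pt v = i
        · refine le_trans ?_ (hv ▸ hd v)
          rw [← nb_dg]
          refine card_le_card_of_injOn Prod.snd ?_ ?_
          · intro e he
            rw [mem_coe, mem_filter, memS] at he
            have h1 := he.1.1
            rw [he.2] at h1
            exact mem_nb.2 h1
          · intro e he f hf hef
            rw [mem_coe, mem_filter] at he hf
            exact Prod.ext (he.2.trans hf.2.symm) hef
        · rw [filter_eq_empty_iff.2, card_empty]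
          · exact Nat.zero_le _
          · intro e he h
            rw [memS] at he
            exact hv (h ▸ he.2.2))
      (by
        intro v
        by_cases hv : pt v = i
        · refine le_trans ?_ (hv ▸ hd v)
          rw [← nb_dg]
          refine card_le_card_of_injOn Prod.fst ?_ ?_
          · intro e he
            rw [mem_coe, mem_filter, memS] at he
            have h1 := he.1.1
            rw [he.2] at h1
            exact mem_nb.2 h1.symm
          · intro e he f hf hef
            rw [mem_coe, mem_filter] at he hf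
            exact Prod.ext hef (he.2.trans hf.2.symm)
        · rw [filter_eq_empty_iff.2, card_empty]
          · exact Nat.zero_le _
          · intro e he h
            rw [memS] at he
            apply hv
            rw [← h, ← (hR _ _ he.1).2]
            exact he.2.2)
    refine ⟨fun e => if h : κ e < (Q i).card then ((Q i).equivFin.symm ⟨κ e, h⟩).1 else 0,
      ?_, ?_, ?_⟩
    · intro v w h1 h2 h3
      have h4 := hκ1 (v, w) ((memS _).2 ⟨h1, h2, h3⟩)
      simp only [dif_pos h4]
      exact ((Q i).equivFin.symm ⟨κ (v, w), h4⟩).2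
    · intro v w w' h1 h1' h2 h3 he
      by_contra hne
      have m := (memS (v, w)).2 ⟨h1, h2, h3⟩
      have m' := (memS (v, w')).2 ⟨h1', h2, h3⟩
      simp only [dif_pos (hκ1 _ m), dif_pos (hκ1 _ m')] at he
      have h5 := (Q i).equivFin.symm.injective (Subtype.ext he)
      exact hκ2 _ m _ m' (fun h => hne (Prod.ext_iff.1 h).2) (Or.inl rfl) (Fin.ext_iff.1 h5)
    · intro v w w' h1 h1' h2 h3 he
      by_contra hne
      have hsf : ∀ x, R.Adj x v → sd x = false := by
        intro x hx
        have := (hR x v hx).1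
        rw [h2] at this
        cases h : sd x
        · rfl
        · exact absurd h this
      have m := (memS (w, v)).2 ⟨h1, hsf w h1, (hR w v h1).2.trans h3⟩
      have m' := (memS (w', v)).2 ⟨h1', hsf w' h1', (hR w' v h1').2.trans h3⟩
      simp only [dif_pos (hκ1 _ m), dif_pos (hκ1 _ m')] at he
      have h5 := (Q i).equivFin.symm.injective (Subtype.ext he)
      exact hκ2 _ m _ m' (fun h => hne (Prod.ext_iff.1 h).1) (Or.inr rfl) (Fin.ext_iff.1 h5)
  choose col hc1 hc2 hc3 using hk
  have key : ∀ v w, R.Adj v w → (if sd v = false then col (pt v) (v, w) else col (pt v) (w, v)) =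
      (if sd w = false then col (pt w) (w, v) else col (pt w) (v, w)) := by
    intro v w h
    have h1 := hR v w h
    rw [← h1.2]
    cases h2 : sd v <;> cases h3 : sd w
    · exact absurd (h2.trans h3.symm) h1.1
    · simp
    · simp
    · exact absurd (h2.trans h3.symm) h1.1
  refine ⟨fun v w => if R.Adj v w then
    (if sd v = false then col (pt v) (v, w) else col (pt v) (w, v)) else 0, ?_, ?_, ?_⟩
  · intro v w
    by_cases h : R.Adj v w
    · simp only [if_pos h, if_pos h.symm]
      exact key v w h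
    · simp only [if_neg h, if_neg (fun hh : R.Adj w v => h hh.symm)]
  · intro v w h
    simp only [if_pos h]
    cases h2 : sd v
    · rw [if_pos rfl]
      exact hc1 _ v w h h2 rfl
    · rw [if_neg (by simp)]
      have h1 := hR v w h
      rw [h1.2]
      refine hc1 _ w v h.symm ?_ rfl
      cases h3 : sd w
      · rfl
      · exact absurd (h2.trans h3.symm) h1.1
  · intro v w w' h h' he
    simp only [if_pos h, if_pos h'] at he
    cases h2 : sd v
    · rw [h2, if_pos rfl, if_pos rfl] at he
      exact hc2 _ v w w' h h' h2 rfl he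
    · rw [h2, if_neg (by simp), if_neg (by simp)] at he
      exact hc3 _ v w w' h.symm h'.symm h2 rfl he

theorem SI.mono {G N0 : SimpleGraph V} {d D s : ℕ} {C σ π κ θ θ' : ℝ} {sd pt : V → Bool}
    {Q : Bool → Finset ℕ} {P2 : Finset ℕ} {F : V → Finset ℕ} {W : ℕ → Finset V}
    (h : SI G N0 d D s C σ π κ θ sd pt Q P2 F W) (hθ : θ ≤ θ') :
    SI G N0 d D s C σ π κ θ' sd pt Q P2 F W := by
  have h1 : θ * d ≤ θ' * d := mul_le_mul_of_nonneg_right hθ (Nat.cast_nonneg d)
  exact ⟨h.Dd, h.deg, h.VC, h.Vl, fun v => (h.Fx v).trans h1, fun b => (h.load b).trans h1,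
    h.Qlt, h.Plt, h.QQ, h.QP, h.Qc, h.Pc, fun v => (h.crd v).trans h1, h.N0c, h.N0m,
    fun b hb => (h.Wx b hb).trans h1, h.W1, h.sgs, h.sth.trans h1⟩

theorem SO.mono {G N0 U Con2 : SimpleGraph V} {d : ℕ} {κ r2 lam lam' ι : ℝ} {sd pt : V → Bool}
    {Q : Bool → Finset ℕ} {P2 : Finset ℕ} {F : V → Finset ℕ} {W : ℕ → Finset V}
    {Zs : Finset (Finset V)} {L : V → Finset ℕ} {t : V → V → ℕ}
    (h : SO G N0 U Con2 d κ r2 lam ι sd pt Q P2 F W Zs L t) (hl : lam ≤ lam') :
    SO G N0 U Con2 d κ r2 lam' ι sd pt Q P2 F W Zs L t := by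
  have h1 : lam * d ≤ lam' * d := mul_le_mul_of_nonneg_right hl (Nat.cast_nonneg d)
  exact ⟨h.Uc, h.N0U, h.CU, h.sam, h.sad, h.fre, h.frd, h.col, h.LP, h.LF,
    fun v => (h.Lx v).trans h1, fun b hb => (h.Ll b hb).trans h1, h.Ls⟩

end Pool.Agent.Work.MP_db9399_da.helper46
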