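import Pool.Agent.Work.MP_db9399_da_helper46.LNC
import Pool.Agent.Work.MP_db9399_da_helper93.SGS

/-!
# MP_db9399, DENSE-ALL, block LOCN: a piece of type N (helper46)
-/

set_option autoImplicit false

namespace Pool.Agent.Work.MP_db9399_da.helper46

open Finset Classical
open Pool.Agent.Work.MP_db9399_all (nb)
open Pool.Agent.Work.MP_db9399_da_helper72
open Pool.Agent.Work.MP_db9399_da_helper93 (SG sgs sum_sgv sgp_union qq_sgp dgU)
open Pool.Agent.Work.MP_db9399_lt (us)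
open Pool.Agent.Work.MP_db9399_da (sgp qtr prt LI LN PEF Stmt_LOCN)

universe u

variable {V : Type u} [Fintype V]

theorem qtr_qt (sd pt : V → Bool) (β i : Bool) : qtr sd pt β i = qt sd pt β i := by
  unfold qtr qt
  congr 1

theorem sgp_sum (L : V → Finset ℕ) (sd pt : V → Bool) (i : Bool) (b : ℕ) :
    sgp L sd pt i b = ∑ v ∈ univ.filter (fun v => pt v = i ∧ b ∈ L v), sgv (sd v) := by
  have h1 := sum_sgv sd pt i (fun v => b ∈ L v)
  have h2 : ∑ v ∈ univ.filter (fun v => pt v = i), sgv (sd v) * (if b ∈ L v then 1 else 0 : ℤ) =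
      ∑ v ∈ univ.filter (fun v => pt v = i ∧ b ∈ L v), sgv (sd v) := by
    rw [← filter_filter, sum_filter (p := fun v => b ∈ L v)]
    refine sum_congr rfl fun v _ => ?_
    split_ifs <;> simp
  rw [← h2, h1]
  unfold sgp qtr us
  congr 2 <;>
  · congr 1
    ext v
    simp only [mem_filter, mem_univ, true_and, mem_inter]

theorem PPc (d : ℕ) (Q : Bool → Finset ℕ) (P2 : Finset ℕ) : (PP d Q P2).card ≤ d + 2 := by
  unfold PP
  refine (card_le_card sdiff_subset).trans ?_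
  rw [card_range]

/-- `LI` with a number `K` instead of `8` -/
structure LIK (K : ℕ) (G : SimpleGraph V) (d : ℕ) (C ρ π κ θ : ℝ) (sd pt : V → Bool)
    (Q : Bool → Finset ℕ) (P2 : Finset ℕ) (F : V → Finset ℕ) : Prop where
  VC : (Fintype.card V : ℝ) ≤ C * d
  Flt : ∀ v, ∀ b ∈ F v, b < d + 2
  Fx : ∀ v, ((F v).card : ℝ) ≤ θ * d
  load : ∀ b, ((us F b).card : ℝ) ≤ θ * d
  Qlt : ∀ i, Q i ⊆ range (d + 2)
  Plt : P2 ⊆ range (d + 2)
  QQ : Disjoint (Q false) (Q true)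
  QP : ∀ i, Disjoint (Q i) P2
  Qc : ∀ i, κ * d ≤ ((Q i).card : ℝ) ∧ ((Q i).card : ℝ) ≤ 2 * κ * d
  Pc : π * d ≤ (P2.card : ℝ) ∧ (P2.card : ℝ) ≤ 2 * π * d
  FQ : ∀ v, Disjoint (F v) (Q (pt v))
  sgQ : ∀ i, ∀ b ∈ Q (!i) ∪ P2, |sgp F sd pt i b| ≤ K
  sm2 : ∀ i, |((∑ b ∈ P2, sgp F sd pt i b : ℤ) : ℝ)| ≤ θ * d
  smQ : ∀ i, |((∑ b ∈ Q (!i), sgp F sd pt i b : ℤ) : ℝ)| ≤ θ * d
  cutG : ∀ S : Finset V, ρ * S.card * (univ \ S).card ≤ ∑ v ∈ S, ((nb G v \ S).card : ℝ)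
  cutP : ∀ i, ∀ S ⊆ prt pt i, ρ * S.card * (prt pt i \ S).card ≤
    ∑ v ∈ S, (((nb G v \ S) ∩ qtr sd pt (!(sd v)) i).card : ℝ)

theorem LIK.of {G : SimpleGraph V} {d : ℕ} {C ρ π κ θ : ℝ} {sd pt : V → Bool}
    {Q : Bool → Finset ℕ} {P2 : Finset ℕ} {F : V → Finset ℕ}
    (h : LI G d C ρ π κ θ sd pt Q P2 F) : LIK 8 G d C ρ π κ θ sd pt Q P2 F :=
  ⟨h.VC, h.Flt, h.Fx, h.load, h.Qlt, h.Plt, h.QQ, h.QP, h.Qc, h.Pc, h.FQ, h.sgQ, h.sm2, h.smQ,
    h.cutG, h.cutP⟩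

section core
variable {K : ℕ}
variable {G : SimpleGraph V} {d : ℕ} {C g ρ π κ θ θS : ℝ} {sd pt : V → Bool}
  {Q : Bool → Finset ℕ} {P2 : Finset ℕ} {F : V → Finset ℕ}

theorem mkSG (hI : LIK K G d C ρ π κ θ sd pt Q P2 F) (hN : LN G d g ρ θ sd pt F)
    {W : ℕ → Finset V} (hW : ∀ b, ∀ v ∈ W b, b ∈ PP d Q P2 ∧ b ∉ F v) :
    SG G d (d + 1) sd pt Q P2 F W := by
  refine ⟨?_, ?_, hI.FQ, hI.QQ, hI.QP, hI.Qlt, hI.Plt, ?_, fun b _ v hv => (hW b v hv).2⟩
  · intro v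
    rw [← nb_dg]
    exact hN.deg v
  · intro v b hb
    exact mem_range.2 (hI.Flt v b hb)
  · intro i
    have h1 := hN.siz false i
    have h2 := hN.siz true i
    rw [qtr_qt] at h1 h2
    omega

/-- stage A: input -/
theorem stageA (hI : LIK K G d C ρ π κ θ sd pt Q P2 F) (hN : LN G d g ρ θ sd pt F)
    (hθ : 0 < θ) (hθS : 8 * θ ≤ θS) (hθg : 100 * θ ≤ g) (hg : 0 < g)
    (hgd : 100 ≤ g * d) (hSd : 100 ≤ θS * d) :
    ∃ W : ℕ → Finset V, SI G ⊥ d (d + 1) ⌊θS * d⌋₊ C 4 π κ θS sd pt Q P2 F W ∧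
      (∀ b, ∀ v ∈ W b, b ∈ PP d Q P2 ∧ b ∉ F v) ∧
      (∀ b ∈ PP d Q P2, Even ((univ.filter fun v => b ∈ F v ∨ v ∈ W b)ᶜ).card) ∧
      ∀ β i, 4 * (qt sd pt β i ∩ (PP d Q P2).biUnion W).card ≤ (PP d Q P2).card + 3 := by
  have hPc := PPc d Q P2
  have hdR : (0 : ℝ) ≤ d := Nat.cast_nonneg d
  have hθd : 100 * (θ * d) ≤ g * d := by nlinarith
  have hθd8 : 8 * (θ * d) ≤ θS * d := by nlinarith
  have hθd0 : 0 ≤ θ * d := by positivity
  have hVl := hN.Vl
  have hVpos : 0 < Fintype.card V := by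
    have : (0 : ℝ) < Fintype.card V := by nlinarith
    exact_mod_cast this
  have : Nonempty V := Fintype.card_pos_iff.1 hVpos
  have hsz : ∀ β i, ∀ b ∈ PP d Q P2,
      (PP d Q P2).card + 3 ≤ 4 * (qt sd pt β i \ us F b).card := by
    intro β i b _
    have h1 := hN.siz β i
    rw [qtr_qt] at h1
    have h2 := hI.load b
    have h3 : (qt sd pt β i).card ≤ (qt sd pt β i \ us F b).card + (us F b).card := by
      have := le_card_sdiff (us F b) (qt sd pt β i)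
      omega
    have h4 : ((PP d Q P2).card : ℝ) ≤ d + 2 := by exact_mod_cast hPc
    have h5 : (4 * (qt sd pt β i).card : ℝ) = Fintype.card V := by exact_mod_cast h1
    have h6 : ((qt sd pt β i).card : ℝ) ≤ (qt sd pt β i \ us F b).card + (us F b).card := by
      exact_mod_cast h3
    have h7 : ((PP d Q P2).card + 3 : ℝ) ≤ 4 * (qt sd pt β i \ us F b).card := by nlinarith
    exact_mod_cast h7
  obtain ⟨W, w1, w2, w3, w4, w5, w6⟩ := miss1 sd pt (PP d Q P2) F hsz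
  refine ⟨W, ?_, w1, w3, w6⟩
  have hSG := mkSG hI hN w1
  refine ⟨Or.inr rfl, hSG.deg, hI.VC, ?_, ?_, ?_, hI.Qlt, hI.Plt, hI.QQ, hI.QP, hI.Qc, hI.Pc,
    ?_, ?_, ?_, ?_, w4, ?_, ?_⟩
  · have : (d : ℝ) + 2 ≤ Fintype.card V := by nlinarith
    exact_mod_cast this
  · intro v
    have := hI.Fx v
    linarith
  · intro b
    have := hI.load b
    unfold us at this
    linarith
  · intro v
    rw [dg_crs]
    have := hN.dgp v (!(sd v)) (pt v)
    linarith
  · intro v w h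
    exact absurd h (by simp)
  · intro v
    unfold dg
    simp
  · intro b _
    have h1 : ((W b).card : ℝ) ≤ 1 := by exact_mod_cast w2 b
    linarith
  · intro i
    rw [sgs hSG i]
    set X : ℤ := ∑ v ∈ univ.filter (fun v => pt v = i), sgv (sd v) *
      (((PP d Q P2).filter fun b => v ∈ W b).card : ℤ) with hX
    have h1 : ∑ b ∈ P2 ∪ Q (!i), sgp F sd pt i b = ∑ b ∈ P2, sgp F sd pt i b +
        ∑ b ∈ Q (!i), sgp F sd pt i b := sum_union (hI.QP (!i)).symm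
    rw [h1]
    have h2 := hI.sm2 i
    have h3 := hI.smQ i
    have h4 : |(X : ℝ)| ≤ 1 := by exact_mod_cast w5 i
    set Y := ∑ b ∈ P2, sgp F sd pt i b with hY
    set Z := ∑ b ∈ Q (!i), sgp F sd pt i b with hZ
    have h5 : ((|-(Y + Z) + X| : ℤ) : ℝ) ≤ θS * d := by
      push_cast
      rw [abs_le] at h2 h3 h4 ⊢
      constructor <;> linarith [h2.1, h2.2, h3.1, h3.2, h4.1, h4.2]
    have h6 : ((-(Y + Z) + X).natAbs : ℝ) ≤ θS * d := by
      rw [Nat.cast_natAbs]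
      exact h5
    have h7 := Nat.le_floor h6
    rw [← Int.natCast_natAbs]
    exact_mod_cast h7
  · exact Nat.floor_le (by linarith)

/-- stage B: missed vertices -/
theorem stageB {U Con2 : SimpleGraph V} {r2 lam ι : ℝ} {W : ℕ → Finset V}
    {Zs : Finset (Finset V)} {L : V → Finset ℕ} {t : V → V → ℕ}
    (hI : LIK K G d C ρ π κ θ sd pt Q P2 F) (hN : LN G d g ρ θ sd pt F)
    (hθg : 100 * θ ≤ g) (hg : 0 < g) (hlam : 100 * lam ≤ g) (hπ : 100 * (K + 2) * π ≤ g)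
    (hκ : κ ≤ π) (hgd : 100 ≤ g * d) (hSd : 2 * (K + 2 : ℝ) ≤ θS * d)
    (hW : ∀ b, ∀ v ∈ W b, b ∈ PP d Q P2 ∧ b ∉ F v)
    (hWq : ∀ β i, 4 * (qt sd pt β i ∩ (PP d Q P2).biUnion W).card ≤ (PP d Q P2).card + 3)
    (hO : SO G ⊥ U Con2 d κ r2 lam ι sd pt Q P2 F W Zs L t) :
    ∃ W2 : ℕ → Finset V, S2I U Con2 ⊥ d θS sd pt Q P2 F L W W2 ∧
      ∀ b, ∀ v ∈ W2 b, b ∈ P2 ∪ Q (!(pt v)) ∧ b ∉ F v ∧ b ∉ L v ∧
        v ∉ (PP d Q P2).biUnion W := by
  have hPc := PPc d Q P2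
  have hdR : (0 : ℝ) ≤ d := Nat.cast_nonneg d
  have hθd : 100 * (θ * d) ≤ g * d := by nlinarith
  have hld : 100 * (lam * d) ≤ g * d := by nlinarith
  have hπd : 100 * (K + 2) * (π * d) ≤ g * d := by nlinarith
  have hκd : κ * d ≤ π * d := by nlinarith
  have hVl := hN.Vl
  have hVpos : 0 < Fintype.card V := by
    have : (0 : ℝ) < Fintype.card V := by nlinarith
    exact_mod_cast this
  have : Nonempty V := Fintype.card_pos_iff.1 hVpos
  have hSG := mkSG hI hN hW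
  have hLQ : ∀ i, ∀ b ∈ Q i, ∀ v, b ∉ L v := by
    intro i b hb v hbL
    exact disjoint_left.1 (hI.QP i) hb (hO.LP v hbL)
  have hsL : ∀ i, ∀ b ∈ P2 ∪ Q (!i), |sgp L sd pt i b| ≤ 2 := by
    intro i b hb
    rw [sgp_sum]
    rcases mem_union.1 hb with hb | hb
    · exact hO.Ls b hb i
    · rw [filter_eq_empty_iff.2, sum_empty]
      · simp
      · intro v _ h
        exact hLQ _ b hb v h.2
  have hLl : ∀ i, ∀ b ∈ P2 ∪ Q (!i), ((us L b).card : ℝ) ≤ g * d / 100 := by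
    intro i b hb
    rcases mem_union.1 hb with hb | hb
    · have := hO.Ll b hb
      unfold us
      linarith
    · have : us L b = ∅ := by
        rw [eq_empty_iff_forall_notMem]
        intro v hv
        exact hLQ _ b hb v (mem_us.1 hv)
      rw [this, card_empty]
      push_cast
      linarith
  obtain ⟨W2, v1, v2, v3, v4⟩ := missK (K + 2) sd pt (fun i => P2 ∪ Q (!i)) (fun v => F v ∪ L v)
    ((PP d Q P2).biUnion W)
    (by
      intro i b hb
      have h1 := hsL i b hb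
      have h2 := hI.sgQ i b (by rw [union_comm]; exact hb)
      rw [qq_sgp _ hSG.eqs, sgp_union hO.LF]
      rw [abs_le] at h1 h2 ⊢
      push_cast
      omega)
    (by
      intro β i b hb
      have h1 := hN.siz β i
      rw [qtr_qt] at h1
      have h2 := hI.load b
      have h3 := hLl i b hb
      have h4 := hWq β i
      have h5 : (qt sd pt β i).card ≤
          (qt sd pt β i \ (us (fun v => F v ∪ L v) b ∪ (PP d Q P2).biUnion W)).card +
          ((us F b).card + (us L b).card + (qt sd pt β i ∩ (PP d Q P2).biUnion W).card) := by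
        rw [← card_sdiff_add_card_inter (qt sd pt β i)
          (us (fun v => F v ∪ L v) b ∪ (PP d Q P2).biUnion W)]
        refine Nat.add_le_add_left ?_ _
        refine le_trans (card_le_card (t := (us F b ∪ us L b) ∪
          (qt sd pt β i ∩ (PP d Q P2).biUnion W)) ?_) ?_
        · intro v hv
          rw [mem_inter, mem_union, mem_us, mem_union] at hv
          rw [mem_union, mem_union, mem_us, mem_us, mem_inter]
          rcases hv.2 with h | h
          · exact Or.inl h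
          · exact Or.inr ⟨hv.1, h⟩
        · exact (card_union_le _ _).trans (Nat.add_le_add_right (card_union_le _ _) _)
      have h6 : ((P2 ∪ Q (!i)).card : ℝ) ≤ 4 * (π * d) := by
        have h7 : ((P2 ∪ Q (!i)).card : ℝ) ≤ P2.card + (Q (!i)).card := by
          exact_mod_cast card_union_le _ _
        have h8 := hI.Pc.2
        have h9 := (hI.Qc (!i)).2
        nlinarith
      have h10 : (4 * (qt sd pt β i).card : ℝ) = Fintype.card V := by exact_mod_cast h1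
      have h11 : ((4 * (qt sd pt β i ∩ (PP d Q P2).biUnion W).card : ℕ) : ℝ) ≤
          ((PP d Q P2).card + 3 : ℕ) := by exact_mod_cast h4
      have h12 : ((PP d Q P2).card : ℝ) ≤ d + 2 := by exact_mod_cast hPc
      have h13 : ((qt sd pt β i).card : ℝ) ≤
          (qt sd pt β i \ (us (fun v => F v ∪ L v) b ∪ (PP d Q P2).biUnion W)).card +
          ((us F b).card + (us L b).card + (qt sd pt β i ∩ (PP d Q P2).biUnion W).card) := by
        exact_mod_cast h5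
      push_cast at h11
      have h15 : (K + 2 : ℝ) * (P2 ∪ Q (!i)).card ≤ (K + 2) * (4 * (π * d)) :=
        mul_le_mul_of_nonneg_left h6 (by positivity)
      have h14 : ((K + 2 : ℕ) * (P2 ∪ Q (!i)).card : ℝ) ≤
        (qt sd pt β i \ (us (fun v => F v ∪ L v) b ∪ (PP d Q P2).biUnion W)).card := by
        push_cast
        nlinarith
      exact_mod_cast h14)
  have hv : ∀ b, ∀ v ∈ W2 b, b ∈ P2 ∪ Q (!(pt v)) ∧ b ∉ F v ∧ b ∉ L v ∧
        v ∉ (PP d Q P2).biUnion W := by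
    intro b v hv
    have h1 := v1 b v hv
    rw [mem_union (t := L v), not_or] at h1
    exact ⟨h1.1, h1.2.1.1, h1.2.1.2, h1.2.2⟩
  refine ⟨W2, ⟨hSG.Flt, hI.FQ, hSG.eqs, ?_, hSG.WF, ?_, ?_, ?_, v3, ?_⟩, hv⟩
  · intro i
    have h1 := hN.siz false i
    have h2 : (qtr sd pt false i).card ≤ (pr pt i).card := by
      refine card_le_card fun v hv => ?_
      rw [qtr_qt, mem_qt] at hv
      unfold pr
      rw [mem_filter]
      exact ⟨mem_univ _, hv.2⟩
    omega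
  · intro v w h
    exact absurd h (by simp)
  · intro v
    unfold dg
    simp
  · intro b
    have h1 : ((W2 b).card : ℝ) ≤ 2 * (K + 2) := by exact_mod_cast v2 b
    linarith
  · intro i b hb
    have h1 : ∀ β, (qt sd pt β i \ univ.filter fun v => b ∈ F v ∨ b ∈ L v ∨ v ∈ W2 b) =
        ((qt sd pt β i \ us (fun v => F v ∪ L v) b) \ W2 b) := by
      intro β
      ext v
      simp only [mem_sdiff, mem_filter, mem_univ, true_and, mem_us, mem_union, not_or]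
      tauto
    rw [h1, h1]
    exact v4 i b hb

/-- the end: Koenig's theorem for the last palettes -/
theorem lastN {U Con2 R : SimpleGraph V} {r2 lam ι : ℝ} {W W2 : ℕ → Finset V}
    {Zs : Finset (Finset V)} {L : V → Finset ℕ} {t t2 : V → V → ℕ}
    (hI : LIK K G d C ρ π κ θ sd pt Q P2 F) (hN : LN G d g ρ θ sd pt F)
    (hW : ∀ b, ∀ v ∈ W b, b ∈ PP d Q P2 ∧ b ∉ F v)
    (hW1 : ∀ v, ((PP d Q P2).filter fun b => v ∈ W b).card ≤ 1)
    (hO : SO G ⊥ U Con2 d κ r2 lam ι sd pt Q P2 F W Zs L t)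
    (hS2 : S2I U Con2 ⊥ d θS sd pt Q P2 F L W W2)
    (hW2 : ∀ b, ∀ v ∈ W2 b, b ∈ P2 ∪ Q (!(pt v)) ∧ b ∉ F v ∧ b ∉ L v ∧
      v ∉ (PP d Q P2).biUnion W)
    (h2 : Col U R (B2 Q P2 F L pt W2) t2) : ∃ t : V → V → ℕ, PEF G d F t := by
  have hSG := mkSG hI hN hW
  -- palettes
  have pB : ∀ v, ∀ b ∈ BB d Q P2 F W v, b ∈ PP d Q P2 ∧ b ∉ F v := by
    intro v b hb
    unfold BB at hb
    rw [mem_filter] at hb
    exact ⟨hb.1, hb.2.1⟩
  have pP : ∀ b ∈ PP d Q P2, b < d + 2 ∧ b ∉ P2 ∧ ∀ i, b ∉ Q i := by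
    intro b hb
    unfold PP at hb
    rw [mem_sdiff, mem_range, mem_union, mem_union, not_or, not_or] at hb
    refine ⟨hb.1, hb.2.2, fun i => ?_⟩
    cases i
    · exact hb.2.1.1
    · exact hb.2.1.2
  have pB2 : ∀ v, ∀ b ∈ B2 Q P2 F L pt W2 v, b ∈ P2 ∪ Q (!(pt v)) ∧ b ∉ F v ∧ b ∉ L v := by
    intro v b hb
    unfold B2 at hb
    rw [mem_filter] at hb
    exact ⟨hb.1, hb.2.1, hb.2.2.1⟩
  have hdis : ∀ v, Disjoint (BB d Q P2 F W v ∪ L v) (B2 Q P2 F L pt W2 v) := by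
    intro v
    rw [disjoint_left]
    intro b hb hb'
    have h3 := pB2 v b hb'
    rcases mem_union.1 hb with h | h
    · have h4 := pP b (pB v b h).1
      rcases mem_union.1 h3.1 with h5 | h5
      · exact h4.2.1 h5
      · exact h4.2.2 _ h5
    · exact h3.2.2 h
  have hC := hO.col.comp h2 hdis
  set B' : V → Finset ℕ := fun v => (BB d Q P2 F W v ∪ L v) ∪ B2 Q P2 F L pt W2 v with hB'
  set t' : V → V → ℕ := fun v w => if U.Adj v w then t2 v w else t v w with ht'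
  have hQQ : ∀ v, ∀ b ∈ Q (!(pt v)), b ∉ Q (pt v) := by
    intro v b hb
    cases h : pt v
    · rw [h] at hb
      exact fun hh => disjoint_left.1 hI.QQ hh hb
    · rw [h] at hb
      exact disjoint_left.1 hI.QQ hb
  have pB' : ∀ v, ∀ b ∈ B' v, b < d + 2 ∧ b ∉ F v ∧ b ∉ Q (pt v) := by
    intro v b hb
    simp only [hB'] at hb
    rcases mem_union.1 hb with hb | hb
    · rcases mem_union.1 hb with hb | hb
      · have h3 := pB v b hb
        have h4 := pP b h3.1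
        exact ⟨h4.1, h3.2, h4.2.2 _⟩
      · have h3 := hO.LP v hb
        exact ⟨mem_range.1 (hI.Plt h3), disjoint_left.1 (hO.LF v) hb,
          fun h => disjoint_left.1 (hI.QP _) h h3⟩
    · have h3 := pB2 v b hb
      rcases mem_union.1 h3.1 with h4 | h4
      · exact ⟨mem_range.1 (hI.Plt h4), h3.2.1, fun h => disjoint_left.1 (hI.QP _) h h4⟩
      · exact ⟨mem_range.1 (hI.Qlt _ h4), h3.2.1, hQQ v b h4⟩
  -- degrees
  have hdeg : ∀ v, dg R v univ ≤ (Q (pt v)).card := by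
    intro v
    have h3 := dgU hSG hO.col hO.LP hO.LF v
    have h4 := h2.card v
    have h5 : (P2 ∪ Q (!(pt v))).card ≤ (B2 Q P2 F L pt W2 v).card +
        (((F v ∪ L v) ∩ (P2 ∪ Q (!(pt v)))).card +
          ((P2 ∪ Q (!(pt v))).filter fun b => v ∈ W2 b).card) := by
      refine le_trans (card_le_card (t := B2 Q P2 F L pt W2 v ∪
        (((F v ∪ L v) ∩ (P2 ∪ Q (!(pt v)))) ∪
          (P2 ∪ Q (!(pt v))).filter fun b => v ∈ W2 b)) ?_) ?_
      · intro b hb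
        by_cases h6 : v ∈ W2 b
        · exact mem_union_right _ (mem_union_right _ (mem_filter.2 ⟨hb, h6⟩))
        · by_cases h7 : b ∈ F v ∪ L v
          · exact mem_union_right _ (mem_union_left _ (mem_inter.2 ⟨h7, hb⟩))
          · rw [mem_union, not_or] at h7
            refine mem_union_left _ ?_
            unfold B2
            exact mem_filter.2 ⟨hb, h7.1, h7.2, h6⟩
      · exact (card_union_le _ _).trans (Nat.add_le_add_left (card_union_le _ _) _)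
    have h8 := hW1 v
    have h9 := hS2.W1 v
    have h10 : ((PP d Q P2).filter fun b => v ∈ W b).card = 0 ∨
        ((P2 ∪ Q (!(pt v))).filter fun b => v ∈ W2 b).card = 0 := by
      by_contra hh
      rw [not_or] at hh
      obtain ⟨b, hb⟩ := card_pos.1 (Nat.pos_of_ne_zero hh.1)
      obtain ⟨b', hb'⟩ := card_pos.1 (Nat.pos_of_ne_zero hh.2)
      rw [mem_filter] at hb hb'
      exact (hW2 b' v hb'.2).2.2.2 (mem_biUnion.2 ⟨b, hb⟩)
    omega
  obtain ⟨t3, s1, s2, s3⟩ := finish R sd pt Q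
    (fun v w h => (hO.Uc v w (h2.le v w h)).2) hdeg
  refine ⟨fun v w => if R.Adj v w then t3 v w else t' v w, ?_, ?_, ?_⟩
  · intro v w
    by_cases h : R.Adj v w
    · simp only [if_pos h, if_pos h.symm]
      exact s1 v w
    · simp only [if_neg h, if_neg (fun hh : R.Adj w v => h hh.symm)]
      exact hC.sym v w
  · intro v w h
    by_cases hR : R.Adj v w
    · simp only [if_pos hR]
      have h3 := s2 v w hR
      exact ⟨mem_range.1 (hI.Qlt _ h3), fun hh => disjoint_left.1 (hI.FQ v) hh h3⟩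
    · simp only [if_neg hR]
      have h3 := pB' v _ (hC.col v w h hR)
      exact ⟨h3.1, h3.2.1⟩
  · intro v w hw w' hw' he
    rw [mem_coe, mem_nb] at hw hw'
    simp only at he
    by_cases hR : R.Adj v w
    · by_cases hR' : R.Adj v w'
      · rw [if_pos hR, if_pos hR'] at he
        exact s3 v w w' hR hR' he
      · rw [if_pos hR, if_neg hR'] at he
        exact absurd (he ▸ s2 v w hR) (pB' v _ (hC.col v w' hw' hR')).2.2
    · by_cases hR' : R.Adj v w'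
      · rw [if_neg hR, if_pos hR'] at he
        exact absurd (he ▸ s2 v w' hR') (pB' v _ (hC.col v w hw hR)).2.2
      · rw [if_neg hR, if_neg hR'] at he
        exact hC.inj v w w' hw hR hw' hR' he

end core

/-- LOCN with a natural number `K` instead of `8`. -/
def Stmt_LOCNK : Prop :=
  ∀ (K : ℕ) (C g ρ : ℝ), 1 ≤ C → 0 < g → 0 < ρ → ∃ π0 : ℝ, 0 < π0 ∧ ∀ π : ℝ, 0 < π → π ≤ π0 →
    ∃ κ0 : ℝ, 0 < κ0 ∧ ∀ κ : ℝ, 0 < κ → κ ≤ κ0 → ∃ (θ : ℝ) (d0 : ℕ), 0 < θ ∧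
    ∀ {V : Type u} [Fintype V] (G : SimpleGraph V) (d : ℕ) (sd pt : V → Bool)
      (Q : Bool → Finset ℕ) (P2 : Finset ℕ) (F : V → Finset ℕ), d0 ≤ d →
      LIK K G d C ρ π κ θ sd pt Q P2 F → LN G d g ρ θ sd pt F → ∃ t : V → V → ℕ, PEF G d F t

theorem stmt_LOCNK (hSTA : Stmt_STA.{u}) (hSTB : Stmt_STB.{u}) (hRN : Stmt_RN.{u})
    (hRP : Stmt_RP.{u}) : Stmt_LOCNK.{u} := by
  intro K C g ρ hC hg hρ
  refine ⟨min (g / (100 * (K + 2))) (1 / 100), by positivity, fun π hπ hπ0 =>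
    ⟨min π (1 / 100), by positivity, fun κ hκ hκ0 => ?_⟩⟩
  have hπg : 100 * (K + 2) * π ≤ g := by
    have := hπ0.trans (min_le_left _ _)
    rw [le_div_iff₀ (by positivity)] at this
    linarith
  have hπ1 : π ≤ 1 / 100 := hπ0.trans (min_le_right _ _)
  have hκπ : κ ≤ π := hκ0.trans (min_le_left _ _)
  have hκ1 : κ ≤ 1 / 100 := hκ0.trans (min_le_right _ _)
  set N2 : ℕ := ⌈1 / κ⌉₊ with hN2
  have hN2κ : 1 ≤ (N2 : ℝ) * κ := by
    have h1 : 1 / κ ≤ (N2 : ℝ) := Nat.le_ceil _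
    rwa [div_le_iff₀ hκ] at h1
  have hN2pos : (1 : ℝ) ≤ (N2 : ℝ) := by
    have h1 : 0 < N2 := by
      rw [hN2]
      exact Nat.ceil_pos.2 (by positivity)
    exact_mod_cast h1
  have hC0 : 0 < C := by linarith
  obtain ⟨ε2, m02, hε2, hRP'⟩ := hRP (4 * C) ρ (1 / N2) (κ / C) (by linarith) hρ (by positivity)
    (by rw [div_le_one (by linarith)]; exact hN2pos) (by positivity)
  obtain ⟨lam, ι, θB, dB, hlam, hlam1, hι, hθB, hB⟩ := hSTB C 4 π κ ε2 N2 hC (Or.inr rfl) hπ hπ1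
    hκ hκ1 hN2κ hε2
  obtain ⟨r1, hr1, hr1', hA⟩ := hSTA C 4 π κ (min lam (g / 100)) ι N2 hC (Or.inr rfl) hπ hπ1
    hκ hκ1 (by positivity) ((min_le_left _ _).trans hlam1) hι hN2κ
  obtain ⟨ε1, m01, hε1, hRN'⟩ := hRN C (ρ / C ^ 2) r1 (1 / (2 * C)) hC (by positivity) hr1 hr1'
    (by positivity)
  obtain ⟨θA, dA, hθA, hA'⟩ := hA ε1 hε1
  set θS := min θA θB with hθS
  have hθSpos : 0 < θS := lt_min hθA hθB
  set θ := min (min (θS / 8) (g / 100)) (min ε1 ε2 / 2) with hθdef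
  have hθpos : 0 < θ := by positivity
  have hθ1 : 8 * θ ≤ θS := by
    have : θ ≤ θS / 8 := (min_le_left _ _).trans (min_le_left _ _)
    linarith
  have hθ2 : 100 * θ ≤ g := by
    have : θ ≤ g / 100 := (min_le_left _ _).trans (min_le_right _ _)
    linarith
  have hθ3 : θ ≤ ε1 / 2 := by
    have h1 : θ ≤ min ε1 ε2 / 2 := min_le_right _ _
    have h2 : min ε1 ε2 ≤ ε1 := min_le_left _ _
    linarith
  have hθ4 : θ ≤ ε2 / 2 := by
    have h1 : θ ≤ min ε1 ε2 / 2 := min_le_right _ _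
    have h2 : min ε1 ε2 ≤ ε2 := min_le_right _ _
    linarith
  refine ⟨θ, dA + dB + m01 + m02 + ⌈100 / g⌉₊ + ⌈100 / θS⌉₊ + ⌈2 / ε1⌉₊ + ⌈2 * (K + 2 : ℝ) / θS⌉₊, hθpos, ?_⟩
  intro V _ G d sd pt Q P2 F hd hI hN
  have hdR : (0 : ℝ) ≤ d := Nat.cast_nonneg d
  have hgd : 100 ≤ g * d := by
    have h1 : 100 / g ≤ (d : ℝ) := (Nat.le_ceil _).trans (by exact_mod_cast (by omega))
    rw [div_le_iff₀ hg] at h1
    linarith
  have hSd : 100 ≤ θS * d := by
    have h1 : 100 / θS ≤ (d : ℝ) := (Nat.le_ceil _).trans (by exact_mod_cast (by omega))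
    rw [div_le_iff₀ hθSpos] at h1
    linarith
  have hSK : 2 * (K + 2 : ℝ) ≤ θS * d := by
    have h0 : ⌈2 * (K + 2 : ℝ) / θS⌉₊ ≤ d := by omega
    have h1 : 2 * (K + 2 : ℝ) / θS ≤ (d : ℝ) := (Nat.le_ceil _).trans (Nat.cast_le.2 h0)
    rw [div_le_iff₀ hθSpos] at h1
    linarith
  have hed : 2 ≤ ε1 * d := by
    have h1 : 2 / ε1 ≤ (d : ℝ) := (Nat.le_ceil _).trans (by exact_mod_cast (by omega))
    rw [div_le_iff₀ hε1] at h1
    linarith
  have hVd : (d : ℝ) ≤ Fintype.card V := by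
    have := hN.Vl
    nlinarith
  have hVdN : d ≤ Fintype.card V := by exact_mod_cast hVd
  obtain ⟨W, hSI, hW, hpar, hWq⟩ := stageA (θS := θS) hI hN hθpos hθ1 hθ2 hg hgd hSd
  have hRO : RO G (fun D => Even (Dᶜ).card) r1 (1 / (2 * C)) ε1 := by
    refine hRN' V G d (by omega) hI.VC ?_ ?_ ?_
    · intro v
      have h1 : (dg G v univ : ℝ) + (F v).card = d + 1 := by
        rw [← nb_dg]
        exact_mod_cast hN.deg v
      have h2 := hI.Fx v
      have h3 : (0 : ℝ) ≤ (F v).card := Nat.cast_nonneg _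
      have h4 : θ * d ≤ ε1 / 2 * d := mul_le_mul_of_nonneg_right hθ3 hdR
      have h5 : ε1 * d ≤ ε1 * Fintype.card V := mul_le_mul_of_nonneg_left hVd hε1.le
      rw [abs_le]
      constructor <;> linarith
    · intro S
      have h1 := hI.cutG S
      rw [cut_ee, compl_eq_univ_sdiff]
      refine le_trans ?_ h1
      have h2 : ρ / C ^ 2 ≤ ρ := div_le_self hρ.le (by nlinarith)
      have h3 : (0 : ℝ) ≤ (S.card : ℝ) * ((univ \ S).card : ℝ) := by positivity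
      nlinarith
    · intro S
      have h1 := hN.nbi S
      rw [nbi_ee, nbi_ee']
      refine le_trans ?_ h1
      rw [div_mul_eq_mul_div, div_le_iff₀ (by positivity)]
      have h2 := hI.VC
      have h3 : (Fintype.card V : ℝ) ^ 2 ≤ (C * d) ^ 2 :=
        pow_le_pow_left₀ (Nat.cast_nonneg _) h2 2
      calc ρ * (Fintype.card V : ℝ) ^ 2 ≤ ρ * (C * d) ^ 2 :=
            mul_le_mul_of_nonneg_left h3 hρ.le
        _ = ρ * (d : ℝ) ^ 2 * C ^ 2 := by ring
  obtain ⟨U, Con2, L, t, hSO⟩ := hA' V G ⊥ d (d + 1) ⌊θS * d⌋₊ sd pt Q P2 F W ∅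
    (fun D => Even (Dᶜ).card) (by omega) (by simp) (SI.mono hSI (min_le_left _ _)) hRO hpar
  obtain ⟨W2, hS2, hW2⟩ := stageB (θS := θS) hI hN hθ2 hg
    (by
      have := min_le_right lam (g / 100)
      linarith) hπg hκπ hgd hSK hW hWq hSO
  have hROP : ROP (crs G sd pt) sd pt (1 / N2) (κ / C) ε2 := by
    refine hRP' V (crs G sd pt) sd pt (d / 4) (by omega) ?_ (fun v w h => h.2) hS2.prl ?_ ?_
    · have := hI.VC
      linarith
    · intro v
      rw [dg_crs]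
      have h2 := hN.dgp v (!(sd v)) (pt v)
      have h4 : θ * d ≤ ε2 / 2 * d := mul_le_mul_of_nonneg_right hθ4 hdR
      have h5 : ε2 * d ≤ ε2 * Fintype.card V := mul_le_mul_of_nonneg_left hVd hε2.le
      have h6 : 0 ≤ ε2 * d := by positivity
      refine h2.trans ?_
      linarith
    · intro i S hS
      have hS' : S ⊆ prt pt i := by
        intro v hv
        have := hS hv
        unfold pr at this
        unfold prt
        exact this
      have h1 := hI.cutP i S hS'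
      rw [cut_crs G sd pt i S hS']
      unfold prt at h1
      unfold pr
      exact h1
  have hS2' : S2I U Con2 ⊥ d θB sd pt Q P2 F L W W2 := by
    have h1 : θS * d ≤ θB * d := mul_le_mul_of_nonneg_right (min_le_right _ _) hdR
    exact ⟨hS2.Flt, hS2.FQ, hS2.eqs, hS2.prl, hS2.WF, hS2.NU, hS2.Nm,
      fun b => (hS2.Wc b).trans h1, hS2.W1, hS2.bal⟩
  obtain ⟨R, t2, _, hcol⟩ := hB V G ⊥ U Con2 ⊥ d (d + 1) ⌊θS * d⌋₊ sd pt Q P2 F L W W2 ∅ t
    (by omega) (SI.mono hSI (min_le_right _ _)) (SO.mono hSO (min_le_left _ _)) hS2' hROP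
  exact lastN hI hN hW hSI.W1 hSO hS2 hW2 hcol

/-- LOCN. -/
theorem stmt_LOCN (hSTA : Stmt_STA.{u}) (hSTB : Stmt_STB.{u}) (hRN : Stmt_RN.{u})
    (hRP : Stmt_RP.{u}) : Stmt_LOCN.{u} := by
  intro C g ρ hC hg hρ
  obtain ⟨π0, hπ0, h⟩ := stmt_LOCNK hSTA hSTB hRN hRP 8 C g ρ hC hg hρ
  refine ⟨π0, hπ0, fun π hπ hπ' => ?_⟩
  obtain ⟨κ0, hκ0, h'⟩ := h π hπ hπ'
  refine ⟨κ0, hκ0, fun κ hκ hκ' => ?_⟩
  obtain ⟨θ, d0, hθ, h''⟩ := h' κ hκ hκ'
  exact ⟨θ, d0, hθ, fun G d sd pt Q P2 F hd hI hN => h'' G d sd pt Q P2 F hd (LIK.of hI) hN⟩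

end Pool.Agent.Work.MP_db9399_da.helper46
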