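import Pool.Agent.Work.MP_db9399_da_helper46.LOCN
import Pool.Agent.Work.MP_db9399_da_helper72.STA2
import Pool.Agent.Work.MP_db9399_da_helper73.SPLIT
import Pool.Agent.Work.MP_db9399_da_helper22.LAM
import Pool.Agent.Work.MP_db9399_da_helper93.STB
import Pool.Agent.Work.MP_db9399_da_helper93.RN
import Pool.Agent.Work.MP_db9399_da_helper93.RB
import Pool.Agent.Work.MP_db9399_da_helper49.RP
import Pool.Agent.Work.MP_db9399_bp_helper22.Perm

/-!
# MP_db9399, DENSE-ALL, block LOCN without hypotheses (helper46)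
-/

set_option autoImplicit false

namespace Pool.Agent.Work.MP_db9399_da.helper46

universe u

theorem locn : Pool.Agent.Work.MP_db9399_da.Stmt_LOCN.{u} :=
  stmt_LOCN
    (MP_db9399_da_helper72.stmt_STA MP_db9399_da_helper73.stmt_SPLIT
      MP_db9399_da_helper22.stmt_LAM)
    MP_db9399_da_helper93.stmt_STB
    (MP_db9399_da_helper93.stmt_RN MP_db9399_bp_helper22.stmt_PERM)
    (MP_db9399_da_helper49.stmt_RP
      (MP_db9399_da_helper93.stmt_RB MP_db9399_bp_helper22.stmt_PERM))

theorem locnK : Stmt_LOCNK.{u} :=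
  stmt_LOCNK
    (MP_db9399_da_helper72.stmt_STA MP_db9399_da_helper73.stmt_SPLIT
      MP_db9399_da_helper22.stmt_LAM)
    MP_db9399_da_helper93.stmt_STB
    (MP_db9399_da_helper93.stmt_RN MP_db9399_bp_helper22.stmt_PERM)
    (MP_db9399_da_helper49.stmt_RP
      (MP_db9399_da_helper93.stmt_RB MP_db9399_bp_helper22.stmt_PERM))

end Pool.Agent.Work.MP_db9399_da.helper46
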